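import Mathlib

set_option autoImplicit false

/-!
# Project UV (helper196): two pigeonhole principles for finite sets of complex numbers ordered by the imaginary part
-/

namespace Pool.Agent.U196.UV

open Finset

noncomputable section

/-- many points: two of them (with multiplicity) at distance at most `ℓ` -/
lemma pig_small (F : Finset ℂ) (m : ℂ → ℕ) {x l : ℝ} {n : ℕ} (hn : 1 ≤ n) (hl : 0 < l)
    (hF : ∀ s ∈ F, x ≤ s.im ∧ s.im ≤ x + n * l) (hk : n + 1 ≤ ∑ s ∈ F, m s) :
    ∃ s₀ ∈ F, 2 ≤ ∑ s ∈ F.filter (fun s => s₀.im ≤ s.im ∧ s.im ≤ s₀.im + l), m s := by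
  classical
  set j : ℂ → ℕ := fun s => min (n - 1) ⌊(s.im - x) / l⌋₊ with hj
  have hmap : ∀ s ∈ F, j s ∈ Finset.range n := by
    intro s _
    rw [Finset.mem_range]
    change min (n - 1) ⌊(s.im - x) / l⌋₊ < n
    exact lt_of_le_of_lt (min_le_left _ _) (by omega)
  obtain ⟨i, -, hi⟩ := Finset.exists_lt_sum_fiber_of_maps_to_of_nsmul_lt_sum (w := m) (b := 1) hmap
    (by rw [Finset.card_range, smul_eq_mul, mul_one]; omega)
  have hne : (F.filter (fun s => j s = i)).Nonempty := by
    rw [Finset.nonempty_iff_ne_empty]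
    intro h
    rw [h, Finset.sum_empty] at hi
    omega
  obtain ⟨s₀, hs₀, hmin⟩ := Finset.exists_min_image _ (fun s : ℂ => s.im) hne
  refine ⟨s₀, (Finset.mem_filter.1 hs₀).1, ?_⟩
  have hbox : ∀ s ∈ F, j s = i → x + i * l ≤ s.im ∧ s.im ≤ x + (i + 1) * l := by
    intro s hs hji
    obtain ⟨h1, h2⟩ := hF s hs
    have h0 : 0 ≤ (s.im - x) / l := div_nonneg (by linarith) hl.le
    have h3 := Nat.floor_le h0
    have h4 := Nat.lt_floor_add_one ((s.im - x) / l)
    have hi1 : i ≤ ⌊(s.im - x) / l⌋₊ := by rw [← hji, hj]; exact min_le_right _ _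
    constructor
    · have h5 : (i : ℝ) ≤ (s.im - x) / l := le_trans (by exact_mod_cast hi1) h3
      rw [le_div_iff₀ hl] at h5
      linarith
    · rcases le_or_gt ⌊(s.im - x) / l⌋₊ (n - 1) with h6 | h6
      · have hji' : ⌊(s.im - x) / l⌋₊ = i := by rw [← hji, hj]; simp [h6]
        rw [hji'] at h4
        rw [div_lt_iff₀ hl] at h4
        linarith
      · have hji' : i = n - 1 := by rw [← hji, hj]; simp [h6.le]
        have h7 : (i : ℝ) + 1 = n := by
          rw [hji']
          have : n - 1 + 1 = n := by omega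
          exact_mod_cast this
        rw [h7]
        exact h2
  have hs₀' := Finset.mem_filter.1 hs₀
  have hb0 := hbox s₀ hs₀'.1 hs₀'.2
  have hsub : F.filter (fun s => j s = i) ⊆ F.filter (fun s => s₀.im ≤ s.im ∧ s.im ≤ s₀.im + l) := by
    intro s hs
    have hs' := Finset.mem_filter.1 hs
    have hb := hbox s hs'.1 hs'.2
    refine Finset.mem_filter.2 ⟨hs'.1, hmin s hs, ?_⟩
    linarith
  have h8 : ∑ s ∈ F.filter (fun s => j s = i), m s ≤ ∑ s ∈ F.filter (fun s => s₀.im ≤ s.im ∧ s.im ≤ s₀.im + l), m s :=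
    Finset.sum_le_sum_of_subset hsub
  omega

/-- few points: a box without points -/
lemma pig_large (F : Finset ℂ) {x l : ℝ} {n : ℕ} (hl : 0 < l) (hk : F.card < n) :
    ∃ j : ℕ, j < n ∧ ∀ s ∈ F, ¬ (x + j * l ≤ s.im ∧ s.im < x + (j + 1) * l) := by
  classical
  set f : ℂ → ℕ := fun s => ⌊(s.im - x) / l⌋₊ with hf
  have h1 : (F.image f).card < (Finset.range n).card := by
    rw [Finset.card_range]
    exact lt_of_le_of_lt Finset.card_image_le hk
  obtain ⟨j, hj, hjn⟩ := Finset.exists_mem_notMem_of_card_lt_card h1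
  refine ⟨j, Finset.mem_range.1 hj, fun s hs hh => hjn ?_⟩
  rw [Finset.mem_image]
  refine ⟨s, hs, ?_⟩
  rw [hf]
  rw [Nat.floor_eq_iff (div_nonneg (by have : 0 ≤ (j : ℝ) * l := by positivity
                                       linarith [hh.1]) hl.le)]
  constructor
  · rw [le_div_iff₀ hl]
    linarith [hh.1]
  · rw [div_lt_iff₀ hl]
    linarith [hh.2]

end

end Pool.Agent.U196.UV
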