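import Pool.Agent.U196.UV.Fluct
import Pool.Agent.U196.UV.Pig

set_option autoImplicit false

/-!
# Project UV (helper196): large and small gaps between the zeros, relative to every Dirichlet polynomial
-/

namespace Pool.Agent.U196.UV

open Filter Topology MeasureTheory Complex
open scoped ComplexConjugate
open Pool.Agent.Q97.UM
open Pool.Agent.Q150.UM (dp_cont ev_log ev_loglin)

noncomputable section

/-- there are two zeros (with multiplicity) with ordinates in `[γ, γ + l]` -/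
def SmallAt (l T γ : ℝ) : Prop := 2 ≤ ∑ s ∈ (H370.Zf riemannZeta T (2 * T)).filter (fun s => γ ≤ s.im ∧ s.im ≤ γ + l), mz s

/-- there is no zero with ordinate in `(γ, γ + l)` -/
def LargeAt (l γ : ℝ) : Prop := ∀ s : ℂ, riemannZeta s = 0 → 0 < s.re → s.re < 1 → γ < s.im → γ + l ≤ s.im

lemma mem_Zf {T : ℝ} (hT : 1 ≤ T) (s : ℂ) : s ∈ H370.Zf riemannZeta T (2 * T) ↔
    riemannZeta s = 0 ∧ 0 < s.re ∧ s.re < 1 ∧ T < s.im ∧ s.im ≤ 2 * T := by
  rw [H370.mem_Zf H370.good_zeta hT]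
  unfold H370.zset
  simp only [Set.mem_ofPred_eq]
  constructor
  · rintro ⟨a1, a2, a3, a4, a5⟩
    exact ⟨a5, a1, a2, a3, a4⟩
  · rintro ⟨a1, a2, a3, a4, a5⟩
    exact ⟨a2, a3, a4, a5, a1⟩

lemma mem_ZT {T : ℝ} (hT : 1 ≤ T) (s : ℂ) : s ∈ ZT T ↔
    riemannZeta s = 0 ∧ 0 < s.re ∧ s.re < 1 ∧ T + 1 < s.im ∧ s.im ≤ 2 * T - 1 := by
  unfold ZT
  rw [H370.mem_Zf H370.good_zeta (by linarith)]
  unfold H370.zset
  simp only [Set.mem_ofPred_eq]
  constructor
  · rintro ⟨a1, a2, a3, a4, a5⟩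
    exact ⟨a5, a1, a2, a3, a4⟩
  · rintro ⟨a1, a2, a3, a4, a5⟩
    exact ⟨a2, a3, a4, a5, a1⟩

lemma mz_pos {s : ℂ} (h0 : riemannZeta s = 0) (h1 : s.re < 1) : 1 ≤ mz s := by
  have hs : s ≠ 1 := by
    intro h
    rw [h] at h1
    simp at h1
  have h : mz s ≠ 0 := by
    unfold mz
    have hne : ∃ z ∈ ({1}ᶜ : Set ℂ), riemannZeta z ≠ 0 := ⟨2, by simp, riemannZeta_ne_zero_of_one_le_re (by norm_num)⟩
    have han : AnalyticOnNhd ℂ riemannZeta ({1}ᶜ : Set ℂ) := by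
      apply DifferentiableOn.analyticOnNhd _ isOpen_compl_singleton
      intro z hz
      exact (differentiableAt_riemannZeta hz).differentiableWithinAt
    intro h2
    rw [analyticOrderNatAt, ENat.toNat_eq_zero] at h2
    rcases h2 with h2 | h2
    · rw [(han s hs).analyticOrderAt_eq_zero] at h2
      exact h2 h0
    · rw [analyticOrderAt_eq_top] at h2
      have h3 := han.eqOn_zero_of_preconnected_of_eventuallyEq_zero
        (isConnected_compl_singleton_of_one_lt_rank (by simp) 1).isPreconnected hs h2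
      obtain ⟨z, hz, hz0⟩ := hne
      exact hz0 (h3 hz)
  omega

open Classical in
/-- the sum over a set of ordinates from the integral over a set of points near these ordinates -/
theorem samp_set {ε C θ R T : ℝ} (hε : 0 < ε) (hC : 0 < C)
    (hcnt : ∀ t : ℝ, 3 ≤ t → (H370.NN riemannZeta (t - 1) (t + 1) : ℝ) ≤ C * Real.log t)
    (hθ : 0 < θ) (hθ1 : θ ≤ 1 / 40) (hR : 0 < R) (hθR : θ * (128 * R) ≤ ε)
    (hT : 4 ≤ T) (hL1 : 1 ≤ Real.log T) (hLR : R ≤ Real.log T) (hLT : 4 * Real.log T ≤ T)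
    (hout : 12 * C * Real.log T * T ^ (1 / 40 : ℝ) ≤ ε / 32 * T) {N : ℕ} (hN : (N : ℝ) ≤ T ^ θ) (b : ℕ → ℂ)
    (hW : ∀ b : ℕ → ℂ, |(∫ t in (T + 2 * Real.log T)..(2 * T - 2 * Real.log T), Nw T (R / Real.log T) t * ‖dp N b t‖ ^ 2) -
      (R / Real.pi) * (T * N2 N b)| ≤ 1 * (R / Real.pi) * (T * N2 N b))
    (G : ℝ → Prop) {S : Set ℝ} (hS : MeasurableSet S) (hS1 : S ⊆ Set.Ioc (T + 2 * Real.log T) (2 * T - 2 * Real.log T))
    (hS2 : ∀ t ∈ S, ∃ s ∈ ZT T, |s.im - t| ≤ R / Real.log T ∧ G s.im) :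
    ∫ t in S, ‖dp N b t‖ ^ 2 ≤ 2 * (R / Real.log T) * ((∑ γ ∈ ((H370.Zf riemannZeta T (2 * T)).image Complex.im).filter G,
      ‖dp N b γ‖ ^ 2) + ε / 16 * Real.log T * (T * N2 N b)) := by
  set Z := H370.Zf riemannZeta T (2 * T) with hZ
  set L := Real.log T with hL
  have hL0 : 0 < L := by linarith
  set P : ℂ → Prop := fun s => G s.im ∧ ∀ s' ∈ Z, s'.im = s.im → s.re ≤ s'.re with hP
  set ω : ℂ → ℝ := fun s => if P s then 1 else 0 with hω
  have hω0 : ∀ s, 0 ≤ ω s := by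
    intro s
    simp only [hω]
    split_ifs <;> norm_num
  have hωm : ∀ s ∈ Z, ω s ≤ mz s := by
    intro s hs
    rw [hZ, mem_Zf (by linarith)] at hs
    have h1 : (1 : ℝ) ≤ mz s := by exact_mod_cast mz_pos hs.1 hs.2.2.1
    simp only [hω]
    split_ifs
    · exact h1
    · linarith
  have hcmp := Pool.Agent.Q61.UM.samp_cmp Pool.Agent.Q84.UM.t_DPM hε hC hcnt hθ hθ1 hR hθR hT hL1 hLR hLT hout hN b hW
    (ω := ω) (fun s _ => hω0 s) hωm
  rw [← hL, ← hZ] at hcmp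
  -- the weighted sum is the sum over ordinates
  have hsum : ∑ s ∈ Z, ω s * ‖dp N b s.im‖ ^ 2 ≤ ∑ γ ∈ (Z.image Complex.im).filter G, ‖dp N b γ‖ ^ 2 := by
    have e1 : ∑ s ∈ Z, ω s * ‖dp N b s.im‖ ^ 2 = ∑ s ∈ Z.filter P, ‖dp N b s.im‖ ^ 2 := by
      rw [Finset.sum_filter]
      refine Finset.sum_congr rfl fun s _ => ?_
      simp only [hω]
      split_ifs <;> simp
    have hinj : Set.InjOn Complex.im (Z.filter P : Set ℂ) := by
      intro s hs s' hs' h
      have a1 := Finset.mem_filter.1 (Finset.mem_coe.1 hs)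
      have a2 := Finset.mem_filter.1 (Finset.mem_coe.1 hs')
      have b1 := a1.2.2 s' a2.1 h.symm
      have b2 := a2.2.2 s a1.1 h
      exact Complex.ext (le_antisymm b1 b2) h
    rw [e1, ← Finset.sum_image (f := fun γ => ‖dp N b γ‖ ^ 2) hinj]
    refine Finset.sum_le_sum_of_subset_of_nonneg ?_ fun _ _ _ => by positivity
    intro γ hγ
    rw [Finset.mem_image] at hγ
    obtain ⟨s, hs, rfl⟩ := hγ
    have a1 := Finset.mem_filter.1 hs
    exact Finset.mem_filter.2 ⟨Finset.mem_image_of_mem _ a1.1, a1.2.1⟩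
  -- the pointwise lower bound
  have hpt : ∀ t ∈ S, 1 ≤ ∑ s ∈ (ZT T).filter (fun s => |s.im - t| ≤ R / L), ω s := by
    intro t ht
    obtain ⟨s, hs, hst, hG⟩ := hS2 t ht
    rw [mem_ZT (by linarith)] at hs
    have hsZ : s ∈ Z := by
      rw [hZ, mem_Zf (by linarith)]
      exact ⟨hs.1, hs.2.1, hs.2.2.1, by linarith [hs.2.2.2.1], by linarith [hs.2.2.2.2]⟩
    obtain ⟨s₁, hs₁, hmin⟩ := Finset.exists_min_image (Z.filter (fun s' => s'.im = s.im)) Complex.re
      ⟨s, Finset.mem_filter.2 ⟨hsZ, rfl⟩⟩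
    rw [Finset.mem_filter] at hs₁
    have hP1 : P s₁ := by
      refine ⟨by rw [hs₁.2]; exact hG, fun s' hs' h => ?_⟩
      exact hmin s' (Finset.mem_filter.2 ⟨hs', by rw [h, hs₁.2]⟩)
    have hs₁T : s₁ ∈ (ZT T).filter (fun s => |s.im - t| ≤ R / L) := by
      rw [Finset.mem_filter, mem_ZT (by linarith)]
      have a := hs₁.1
      rw [hZ, mem_Zf (by linarith)] at a
      exact ⟨⟨a.1, a.2.1, a.2.2.1, by rw [hs₁.2]; exact hs.2.2.2.1, by rw [hs₁.2]; exact hs.2.2.2.2⟩, by rw [hs₁.2]; exact hst⟩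
    have h1 : ω s₁ ≤ ∑ s ∈ (ZT T).filter (fun s => |s.im - t| ≤ R / L), ω s :=
      Finset.single_le_sum (fun s _ => hω0 s) hs₁T
    have h2 : ω s₁ = 1 := by
      simp only [hω]
      rw [if_pos hP1]
    linarith
  -- integration
  have hVc : Continuous fun t => ‖dp N b t‖ ^ 2 := by
    have := dp_cont N b
    fun_prop
  have hm := sum_filter_meas (ZT T) (fun s t => |s.im - t| ≤ R / L) (fun s => meas_near s (R / L)) ω
  have hxy : T + 2 * L ≤ 2 * T - 2 * L := by linarith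
  have hii := ii_mul hm.1 hm.2 hVc (T + 2 * L) (2 * T - 2 * L)
  have hI : IntegrableOn (fun t => (∑ s ∈ (ZT T).filter (fun s => |s.im - t| ≤ R / L), ω s) * ‖dp N b t‖ ^ 2)
      (Set.Ioc (T + 2 * L) (2 * T - 2 * L)) := by
    rw [intervalIntegrable_iff_integrableOn_Ioc_of_le hxy] at hii
    exact hii
  have hVi : IntegrableOn (fun t => ‖dp N b t‖ ^ 2) (Set.Ioc (T + 2 * L) (2 * T - 2 * L)) :=
    (hVc.integrableOn_Icc).mono_set Set.Ioc_subset_Icc_self
  have h1 : ∫ t in S, ‖dp N b t‖ ^ 2 ≤ ∫ t in S, (∑ s ∈ (ZT T).filter (fun s => |s.im - t| ≤ R / L), ω s) * ‖dp N b t‖ ^ 2 := by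
    refine setIntegral_mono_on (hVi.mono_set hS1) (hI.mono_set hS1) hS fun t ht => ?_
    have := hpt t ht
    nlinarith [sq_nonneg ‖dp N b t‖]
  have h2 : ∫ t in S, (∑ s ∈ (ZT T).filter (fun s => |s.im - t| ≤ R / L), ω s) * ‖dp N b t‖ ^ 2 ≤
      ∫ t in (T + 2 * L)..(2 * T - 2 * L), (∑ s ∈ (ZT T).filter (fun s => |s.im - t| ≤ R / L), ω s) * ‖dp N b t‖ ^ 2 := by
    rw [intervalIntegral.integral_of_le hxy]
    refine setIntegral_mono_set hI (Eventually.of_forall fun t => ?_) (Eventually.of_forall hS1)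
    exact mul_nonneg (Finset.sum_nonneg fun s _ => hω0 s) (by positivity)
  have h3 := (abs_le.1 hcmp).2
  have hr : 0 ≤ 2 * (R / L) := by positivity
  have h4 := mul_le_mul_of_nonneg_left hsum hr
  linarith

/-- a window with many zeros contains a small gap -/
lemma small_of_many {H L T t c : ℝ} (hT : 1 ≤ T) (hH : 1 ≤ H) (hL : 1 ≤ L) (hc : c * (H + 2 * Real.pi) ≤ 2 * Real.pi)
    (hN : H / Real.pi + 3 ≤ Nw T (H / L) t) :
    ∃ s ∈ ZT T, |s.im - t| ≤ H / L ∧ SmallAt ((1 - c) * (2 * Real.pi / L)) T s.im := by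
  classical
  have hpi := Real.pi_pos
  have hL0 : 0 < L := by linarith
  set F := (ZT T).filter (fun s => |s.im - t| ≤ H / L) with hF
  have hk : (Nw T (H / L) t) = ((∑ s ∈ F, mz s : ℕ) : ℝ) := by
    unfold Nw
    push_cast
    rw [hF]
  obtain ⟨k, hkd⟩ : ∃ k : ℕ, k = ∑ s ∈ F, mz s := ⟨_, rfl⟩
  rw [← hkd] at hk
  have hk3 : H / Real.pi + 3 ≤ (k : ℝ) := by rw [← hk]; exact hN
  have hHpi : 0 < H / Real.pi := by positivity
  have hk2 : 2 ≤ k := by
    have : (2 : ℝ) ≤ (k : ℝ) := by linarith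
    exact_mod_cast this
  obtain ⟨n, hn⟩ : ∃ n : ℕ, n = k - 1 := ⟨_, rfl⟩
  have hn1 : 1 ≤ n := by omega
  have hnk : n + 1 = k := by omega
  have hnr : (n : ℝ) + 1 = k := by exact_mod_cast hnk
  have hn0 : (0 : ℝ) < n := by exact_mod_cast hn1
  obtain ⟨s₀, hs₀, h2⟩ := pig_small F mz (x := t - H / L) (l := 2 * (H / L) / n) (n := n) hn1 (by positivity)
    (fun s hs => by
      rw [hF, Finset.mem_filter] at hs
      have h := abs_le.1 hs.2
      have e : (n : ℝ) * (2 * (H / L) / n) = 2 * (H / L) := by field_simp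
      rw [e]
      exact ⟨by linarith [h.1], by linarith [h.2]⟩)
    (by rw [hnk, hkd])
  have hs₀' := hs₀
  rw [hF, Finset.mem_filter] at hs₀'
  refine ⟨s₀, hs₀'.1, hs₀'.2, ?_⟩
  unfold SmallAt
  refine h2.trans (Finset.sum_le_sum_of_subset ?_)
  intro s hs
  rw [Finset.mem_filter] at hs ⊢
  have hsF := hs.1
  rw [hF, Finset.mem_filter, mem_ZT hT] at hsF
  refine ⟨?_, hs.2.1, hs.2.2.trans ?_⟩
  · rw [mem_Zf hT]
    exact ⟨hsF.1.1, hsF.1.2.1, hsF.1.2.2.1, by linarith [hsF.1.2.2.2.1], by linarith [hsF.1.2.2.2.2]⟩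
  · have h5 : 2 * (H / L) / n ≤ (1 - c) * (2 * Real.pi / L) := by
      have h6 : H / Real.pi + 2 ≤ n := by linarith
      have h7 : 2 * (H / L) / n ≤ 2 * (H / L) / (H / Real.pi + 2) := div_le_div_of_nonneg_left (by positivity) (by positivity) h6
      have h8 : 2 * (H / L) / (H / Real.pi + 2) = (H / (H + 2 * Real.pi)) * (2 * Real.pi / L) := by
        field_simp
      have h9 : H / (H + 2 * Real.pi) ≤ 1 - c := by
        rw [div_le_iff₀ (by positivity)]
        linarith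
      rw [h8] at h7
      exact h7.trans (mul_le_mul_of_nonneg_right h9 (by positivity))
    linarith

/-- a window with few zeros contains a large gap; its left endpoint is near if there is a zero shortly before the window -/
lemma large_of_few {H L T t c ρ : ℝ} (hT : 1 ≤ T) (hH : 1 ≤ H) (hL : 1 ≤ L) (hc : c * H ≤ 2 * Real.pi)
    (ht1 : T + 1 < t - ρ) (ht2 : t + H / L ≤ 2 * T - 1)
    (hN : Nw T (H / L) t ≤ H / Real.pi - 3)
    {s₁ : ℂ} (hs₁ : riemannZeta s₁ = 0) (hs₁' : 0 < s₁.re) (hs₁'' : s₁.re < 1) (hlo : t - ρ ≤ s₁.im) (hhi : s₁.im ≤ t - H / L) :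
    ∃ s ∈ ZT T, |s.im - t| ≤ max ρ (H / L) ∧ LargeAt ((1 + c) * (2 * Real.pi / L)) s.im := by
  classical
  have hpi := Real.pi_pos
  have hL0 : 0 < L := by linarith
  set F := (ZT T).filter (fun s => |s.im - t| ≤ H / L) with hF
  have hk : (Nw T (H / L) t) = ∑ s ∈ F, (mz s : ℝ) := by
    unfold Nw
    rw [hF]
  have hcard : (F.card : ℝ) ≤ H / Real.pi - 3 := by
    refine le_trans ?_ hN
    rw [hk, Finset.card_eq_sum_ones]
    push_cast
    refine Finset.sum_le_sum fun s hs => ?_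
    rw [hF, Finset.mem_filter, mem_ZT hT] at hs
    exact_mod_cast mz_pos hs.1.1 hs.1.2.2.1
  obtain ⟨n, hn⟩ : ∃ n : ℕ, n = F.card + 1 := ⟨_, rfl⟩
  have hnr : (n : ℝ) = F.card + 1 := by rw [hn]; push_cast; ring
  have hn0 : (0 : ℝ) < n := by rw [hnr]; positivity
  have hl0 : 0 < 2 * (H / L) / n := by positivity
  obtain ⟨j, hjn, hj⟩ := pig_large F (x := t - H / L) (l := 2 * (H / L) / n) (n := n) hl0 (by omega)
  obtain ⟨l, hl⟩ : ∃ l, l = 2 * (H / L) / n := ⟨_, rfl⟩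
  rw [← hl] at hj hl0
  obtain ⟨a, ha⟩ : ∃ a, a = t - H / L + j * l := ⟨_, rfl⟩
  have ha1 : t - H / L ≤ a := by
    have : 0 ≤ (j : ℝ) * l := by positivity
    linarith
  have ha2 : a + l ≤ t + H / L := by
    have h1 : (j : ℝ) + 1 ≤ n := by exact_mod_cast hjn
    have h2 : ((j : ℝ) + 1) * l ≤ n * l := mul_le_mul_of_nonneg_right h1 hl0.le
    have h3 : (n : ℝ) * l = 2 * (H / L) := by rw [hl]; field_simp
    linarith
  have hll : (1 + c) * (2 * Real.pi / L) ≤ l := by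
    have h6 : (n : ℝ) ≤ H / Real.pi - 2 := by rw [hnr]; linarith
    have h6' : 0 < H / Real.pi - 2 := lt_of_lt_of_le hn0 h6
    have h7 : 2 * (H / L) / (H / Real.pi - 2) ≤ l := by
      rw [hl]
      exact div_le_div_of_nonneg_left (by positivity) hn0 h6
    refine le_trans ?_ h7
    have h8 : 0 < H - 2 * Real.pi := by
      have : H - 2 * Real.pi = (H / Real.pi - 2) * Real.pi := by field_simp
      rw [this]
      positivity
    have h9 : 2 * (H / L) / (H / Real.pi - 2) = (H / (H - 2 * Real.pi)) * (2 * Real.pi / L) := by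
      field_simp
    rw [h9]
    refine mul_le_mul_of_nonneg_right ?_ (by positivity)
    rw [le_div_iff₀ h8]
    nlinarith [mul_pos h8 hpi]
  -- the last zero before `a`
  have hs1T : s₁ ∈ (ZT T).filter (fun s => s.im < a) := by
    have hs1Z : s₁ ∈ ZT T := by
      rw [mem_ZT hT]
      exact ⟨hs₁, hs₁', hs₁'', by linarith, by
        have : 0 < H / L := by positivity
        linarith⟩
    rw [Finset.mem_filter]
    refine ⟨hs1Z, ?_⟩
    by_contra hcon
    push Not at hcon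
    refine hj s₁ ?_ ⟨by linarith, by linarith⟩
    rw [hF, Finset.mem_filter]
    refine ⟨hs1Z, ?_⟩
    rw [abs_le]
    have : 0 < H / L := by positivity
    exact ⟨by linarith, by linarith⟩
  obtain ⟨s₀, hs₀, hmax⟩ := Finset.exists_max_image ((ZT T).filter (fun s => s.im < a)) Complex.im ⟨s₁, hs1T⟩
  have hm1 := hmax s₁ hs1T
  rw [Finset.mem_filter] at hs₀
  refine ⟨s₀, hs₀.1, ?_, ?_⟩
  · rw [abs_le]
    have h1 := le_max_left ρ (H / L)
    have h2 := le_max_right ρ (H / L)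
    exact ⟨by linarith, by linarith [hs₀.2]⟩
  · intro s' h0 h1 h2 h3
    by_contra hcon
    push Not at hcon
    have h4 : s'.im < a + l := by linarith [hs₀.2]
    have hs'Z : s' ∈ ZT T := by
      rw [mem_ZT hT]
      exact ⟨h0, h1, h2, by linarith, by linarith⟩
    rcases lt_or_ge s'.im a with h5 | h5
    · have := hmax s' (Finset.mem_filter.2 ⟨hs'Z, h5⟩)
      linarith
    · refine hj s' ?_ ⟨by linarith, by linarith⟩
      rw [hF, Finset.mem_filter]
      refine ⟨hs'Z, ?_⟩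
      rw [abs_le]
      exact ⟨by linarith, by linarith⟩

/-- the points without a zero shortly before them carry little weight -/
lemma before_mass {ε T h r : ℝ} (hh0 : 0 ≤ h) {x y : ℝ} (hx : T + h ≤ x) (hy : y ≤ 2 * T) {N : ℕ} (b : ℕ → ℂ)
    (hE : ∀ b : ℕ → ℂ, ∫ t in {t : ℝ | T ≤ t ∧ t ≤ 2 * T ∧ Zo t r = ∅}, ‖dp N b t‖ ^ 2 ≤ ε * T * N2 N b) :
    ∫ t in {t : ℝ | x < t ∧ t ≤ y ∧ Zo (t - h) r = ∅}, ‖dp N b t‖ ^ 2 ≤ ε * T * N2 N b := by
  have hmZ : MeasurableSet {t : ℝ | Zo t r = ∅} := by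
    have h1 := (Pool.Agent.Q178.UM.ZF.t_ZF.2 r 1).compl
    have e : {t : ℝ | Zo t r = ∅} = {t : ℝ | 1 ≤ (Zo t r).ncard}ᶜ := by
      ext t
      simp only [Set.mem_ofPred_eq, Set.mem_compl_iff, not_le, Nat.lt_one_iff]
      rw [Set.ncard_eq_zero (Pool.Agent.Q178.UM.ZF.t_ZF.1 t r)]
    rw [e]
    exact h1
  set A : Set ℝ := {t : ℝ | x < t ∧ t ≤ y ∧ Zo (t - h) r = ∅} with hA
  have hmA : MeasurableSet A := by
    have e : A = Set.Ioc x y ∩ (fun t => t - h) ⁻¹' {t : ℝ | Zo t r = ∅} := by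
      ext t
      simp only [hA, Set.mem_ofPred_eq, Set.mem_inter_iff, Set.mem_Ioc, Set.mem_preimage, and_assoc]
    rw [e]
    exact measurableSet_Ioc.inter (hmZ.preimage (by fun_prop))
  have hmB : MeasurableSet {t : ℝ | T ≤ t ∧ t ≤ 2 * T ∧ Zo t r = ∅} := by
    have e : {t : ℝ | T ≤ t ∧ t ≤ 2 * T ∧ Zo t r = ∅} = Set.Icc T (2 * T) ∩ {t : ℝ | Zo t r = ∅} := by
      ext t
      simp only [Set.mem_ofPred_eq, Set.mem_inter_iff, Set.mem_Icc, and_assoc]
    rw [e]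
    exact measurableSet_Icc.inter hmZ
  obtain ⟨hsh, hn2⟩ := Pool.Agent.Q84.UM.t_DPM.2.1 N b 0 (-h)
  have hsh' : ∀ u, dp N b (u + h) = dp N (fun n => b n * (n : ℂ) ^ ((-h : ℝ) * I)) u := by
    intro u
    have := (Pool.Agent.Q84.UM.t_DPM.2.1 N b u (-h)).1
    rw [sub_neg_eq_add] at this
    exact this
  have hEb := hE (fun n => b n * (n : ℂ) ^ ((-h : ℝ) * I))
  rw [hn2] at hEb
  refine le_trans ?_ hEb
  rw [← integral_indicator hmA, ← integral_indicator hmB]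
  rw [← integral_add_right_eq_self (fun t => A.indicator (fun t => ‖dp N b t‖ ^ 2) t) h]
  have hVc : Continuous fun t => ‖dp N (fun n => b n * (n : ℂ) ^ ((-h : ℝ) * I)) t‖ ^ 2 := by
    have := dp_cont N (fun n => b n * (n : ℂ) ^ ((-h : ℝ) * I))
    fun_prop
  have hle : ∀ u, A.indicator (fun t => ‖dp N b t‖ ^ 2) (u + h) ≤
      {t : ℝ | T ≤ t ∧ t ≤ 2 * T ∧ Zo t r = ∅}.indicator (fun t => ‖dp N (fun n => b n * (n : ℂ) ^ ((-h : ℝ) * I)) t‖ ^ 2) u := by
    intro u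
    by_cases hu : u + h ∈ A
    · have hu2 : u ∈ {t : ℝ | T ≤ t ∧ t ≤ 2 * T ∧ Zo t r = ∅} := by
        simp only [hA, Set.mem_ofPred_eq, add_sub_cancel_right] at hu
        simp only [Set.mem_ofPred_eq]
        exact ⟨by linarith [hu.1], by linarith [hu.2.1], hu.2.2⟩
      rw [Set.indicator_of_mem hu, Set.indicator_of_mem hu2, hsh']
    · rw [Set.indicator_of_notMem hu]
      exact Set.indicator_nonneg (fun _ _ => by positivity) _
  refine integral_mono_of_nonneg (Eventually.of_forall fun u => ?_) ?_ (Eventually.of_forall hle)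
  · exact Set.indicator_nonneg (fun _ _ => by positivity) _
  · rw [integrable_indicator_iff hmB]
    refine (hVc.integrableOn_Icc (a := T) (b := 2 * T)).mono_set ?_
    intro t ht
    exact ⟨ht.1, ht.2.1⟩

open Classical in
/-- **large and small gaps in a positive proportion relative to every Dirichlet polynomial** -/
theorem gaps : ∃ c θ : ℝ, 0 < c ∧ c ≤ 1 ∧ 0 < θ ∧ θ ≤ 1 / 40 ∧ ∀ᶠ T : ℝ in atTop, ∀ N : ℕ, (N : ℝ) ≤ T ^ θ → ∀ b : ℕ → ℂ,
    c * (∑ s ∈ H370.Zf riemannZeta T (2 * T), (mz s : ℝ) * ‖dp N b s.im‖ ^ 2) ≤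
      ∑ γ ∈ ((H370.Zf riemannZeta T (2 * T)).image Complex.im).filter (SmallAt ((1 - c) * (2 * Real.pi / Real.log T)) T),
        ‖dp N b γ‖ ^ 2 ∧
    c * (∑ s ∈ H370.Zf riemannZeta T (2 * T), (mz s : ℝ) * ‖dp N b s.im‖ ^ 2) ≤
      ∑ γ ∈ ((H370.Zf riemannZeta T (2 * T)).image Complex.im).filter (LargeAt ((1 + c) * (2 * Real.pi / Real.log T))),
        ‖dp N b γ‖ ^ 2 := by
  have hpi := Real.pi_pos
  have hpi4 := Real.pi_lt_four
  obtain ⟨H₀, hH₀1, hfl⟩ := fluct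
  obtain ⟨H, hHd⟩ : ∃ H, H = max H₀ (Real.exp (7500 ^ 2)) := ⟨_, rfl⟩
  have hH1 : 1 ≤ H := by rw [hHd]; exact hH₀1.trans (le_max_left _ _)
  have hH0 : 0 < H := by linarith
  have hlogH : (3 : ℝ) ≤ Real.sqrt (Real.log H) / 2500 := by
    have h1 : (7500 : ℝ) ^ 2 ≤ Real.log H := by
      rw [Real.le_log_iff_exp_le hH0, hHd]
      exact le_max_right _ _
    have h2 : (7500 : ℝ) ≤ Real.sqrt (Real.log H) := Real.le_sqrt_of_sq_le h1
    linarith
  obtain ⟨θ₁, hθ₁0, hθ₁1, hfl⟩ := hfl H (by rw [hHd]; exact le_max_left _ _)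
  obtain ⟨θ₂, hθ₂0, hθ₂1, hE⟩ := E_of_E2 b_E2
  obtain ⟨R₁, T₁, hR₁, hE⟩ := hE (1 / 260) (by norm_num)
  obtain ⟨H₂, hH₂1, hW⟩ := b_WIN 1 one_pos
  obtain ⟨R, hRd⟩ : ∃ R, R = max (H + 2 * R₁) H₂ := ⟨_, rfl⟩
  have hR1 : H + 2 * R₁ ≤ R := by rw [hRd]; exact le_max_left _ _
  have hR2 : H₂ ≤ R := by rw [hRd]; exact le_max_right _ _
  have hR0 : 0 < R := by linarith
  obtain ⟨θ₃, hθ₃0, hθ₃1, hW⟩ := hW R hR2
  obtain ⟨θ₄, hθ₄0, hθ₄1, hSA⟩ := b_SAMP (1 / 2) (by norm_num)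
  obtain ⟨C, hC, hcnt⟩ := H370.zcount H370.good_zeta
  obtain ⟨ε, hε⟩ : ∃ ε, ε = 1 / (65 * R) := ⟨_, rfl⟩
  have hε0 : 0 < ε := by rw [hε]; positivity
  obtain ⟨θ, hθ⟩ : ∃ θ, θ = min (min θ₁ θ₂) (min (min θ₃ θ₄) (ε / (128 * R))) := ⟨_, rfl⟩
  have hθ0 : 0 < θ := by rw [hθ]; positivity
  have hθa : θ ≤ θ₁ := by rw [hθ]; exact (min_le_left _ _).trans (min_le_left _ _)
  have hθb : θ ≤ θ₂ := by rw [hθ]; exact (min_le_left _ _).trans (min_le_right _ _)
  have hθc : θ ≤ θ₃ := by rw [hθ]; exact (min_le_right _ _).trans ((min_le_left _ _).trans (min_le_left _ _))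
  have hθd : θ ≤ θ₄ := by rw [hθ]; exact (min_le_right _ _).trans ((min_le_left _ _).trans (min_le_right _ _))
  have hθe : θ * (128 * R) ≤ ε := by
    have : θ ≤ ε / (128 * R) := by rw [hθ]; exact (min_le_right _ _).trans (min_le_right _ _)
    rwa [le_div_iff₀ (by positivity)] at this
  obtain ⟨c, hc⟩ : ∃ c, c = min (min (2 * Real.pi / (H + 2 * Real.pi)) (1 / (1040 * R))) 1 := ⟨_, rfl⟩
  have hc0 : 0 < c := by rw [hc]; positivity
  have hc1 : c * (H + 2 * Real.pi) ≤ 2 * Real.pi := by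
    have : c ≤ 2 * Real.pi / (H + 2 * Real.pi) := by rw [hc]; exact (min_le_left _ _).trans (min_le_left _ _)
    rwa [le_div_iff₀ (by positivity)] at this
  have hc1' : c * H ≤ 2 * Real.pi := by
    have : 0 ≤ c * (2 * Real.pi) := by positivity
    linarith
  have hc2 : c * (1040 * R) ≤ 1 := by
    have : c ≤ 1 / (1040 * R) := by rw [hc]; exact (min_le_left _ _).trans (min_le_right _ _)
    rwa [le_div_iff₀ (by positivity)] at this
  have hc3 : c ≤ 1 := by rw [hc]; exact min_le_right _ _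
  refine ⟨c, θ, hc0, hc3, hθ0, hθa.trans hθ₁1, ?_⟩
  have hout : ∀ᶠ T : ℝ in atTop, 12 * C * Real.log T * T ^ (1 / 40 : ℝ) ≤ ε / 32 * T := by
    have h2 : Tendsto (fun T : ℝ => Real.log T / T ^ (39 / 40 : ℝ)) atTop (𝓝 0) :=
      (isLittleO_log_rpow_atTop (by norm_num : (0 : ℝ) < 39 / 40)).tendsto_div_nhds_zero
    filter_upwards [h2.eventually (ge_mem_nhds (show (0 : ℝ) < ε / 32 / (12 * C) by positivity)), eventually_gt_atTop (0 : ℝ)]
      with T hT hT0
    rw [div_le_iff₀ (by positivity)] at hT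
    have h3 : T = T ^ (1 / 40 : ℝ) * T ^ (39 / 40 : ℝ) := by
      rw [← Real.rpow_add hT0]
      norm_num
    calc 12 * C * Real.log T * T ^ (1 / 40 : ℝ) ≤ 12 * C * (ε / 32 / (12 * C) * T ^ (39 / 40 : ℝ)) * T ^ (1 / 40 : ℝ) := by gcongr
      _ = ε / 32 * (T ^ (1 / 40 : ℝ) * T ^ (39 / 40 : ℝ)) := by field_simp
      _ = ε / 32 * T := by rw [← h3]
  filter_upwards [hfl, hW, hSA, hout, eventually_ge_atTop T₁, eventually_ge_atTop (16 : ℝ), ev_log (2 * (H + 2 * R₁) + R + 4),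
    ev_loglin (1 / 8) (by norm_num)] with T hfl hW hSA hout hT₁ hT16 hL1 hL8 N hN b
  have hT1 : 1 ≤ T := by linarith
  obtain ⟨L, hLT⟩ : ∃ L : ℝ, L = Real.log T := ⟨_, rfl⟩
  have hmono : ∀ {a : ℝ}, θ ≤ a → (N : ℝ) ≤ T ^ a := fun {a} ha => hN.trans (Real.rpow_le_rpow_of_exponent_le hT1 ha)
  have hfl' := hfl N (hmono hθa) b
  have hE' := hE T hT₁ N (hmono hθb)
  have hW' := fun b => (hW N (hmono hθc) b).2.2
  have hSA' := (abs_le.1 (hSA N (hmono hθd) b).2.2).2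
  have hn2 := Pool.Agent.Q150.UM.N2_nonneg N b
  have hTn : 0 ≤ T * N2 N b := by positivity
  rw [← hLT] at hfl' hE' hSA' hL1 hL8 ⊢
  have hL2 : 1 ≤ L := by linarith
  have hL0 : 0 < L := by linarith
  have hRL : R ≤ L := by linarith
  have hHL : H / L ≤ 1 := by
    rw [div_le_one hL0]
    linarith
  -- the total weight
  have htot : (∑ s ∈ H370.Zf riemannZeta T (2 * T), (mz s : ℝ) * ‖dp N b s.im‖ ^ 2) ≤ L * (T * N2 N b) := by
    have h1 : L / (2 * Real.pi) * (T * N2 N b) ≤ 1 / 2 * L * (T * N2 N b) := by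
      refine mul_le_mul_of_nonneg_right ?_ hTn
      rw [div_le_iff₀ (by positivity)]
      have := Real.pi_gt_three
      nlinarith
    linarith
  have hmono2 : ∀ {W : Set ℝ}, MeasurableSet W → W ⊆ Set.Ioc (T + 2 * L) (2 * T - 2 * L) → 1 / 260 * (T * N2 N b) ≤ ∫ t in W, ‖dp N b t‖ ^ 2 →
      ∀ G : ℝ → Prop, (∀ t ∈ W, ∃ s ∈ ZT T, |s.im - t| ≤ R / L ∧ G s.im) →
      c * (∑ s ∈ H370.Zf riemannZeta T (2 * T), (mz s : ℝ) * ‖dp N b s.im‖ ^ 2) ≤
      ∑ γ ∈ ((H370.Zf riemannZeta T (2 * T)).image Complex.im).filter G, ‖dp N b γ‖ ^ 2 := by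
    intro W hWm hWs hWi G hG
    have hs := samp_set (ε := ε) (C := C) (θ := θ) (R := R) (T := T) hε0 hC hcnt hθ0 (hθa.trans hθ₁1) hR0 hθe (by linarith)
      (by rw [← hLT]; exact hL2) (by rw [← hLT]; exact hRL) (by rw [← hLT]; linarith) hout hN b hW' G hWm
      (by rw [← hLT]; exact hWs) (by rw [← hLT]; exact hG)
    rw [← hLT] at hs
    set S := ∑ γ ∈ ((H370.Zf riemannZeta T (2 * T)).image Complex.im).filter G, ‖dp N b γ‖ ^ 2 with hSd
    have h1 : 1 / 260 * (T * N2 N b) ≤ 2 * (R / L) * (S + ε / 16 * L * (T * N2 N b)) := hWi.trans hs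
    have h2 : 2 * (R / L) * (ε / 16 * L * (T * N2 N b)) = 1 / 520 * (T * N2 N b) := by
      rw [hε]
      field_simp
      ring
    have h3 : 1 / 520 * (T * N2 N b) ≤ 2 * (R / L) * S := by
      have : 2 * (R / L) * (S + ε / 16 * L * (T * N2 N b)) = 2 * (R / L) * S + 2 * (R / L) * (ε / 16 * L * (T * N2 N b)) := by ring
      linarith
    have h4 : 1 / (1040 * R) * (L * (T * N2 N b)) ≤ S := by
      have h5 : 2 * (R / L) * (1 / (1040 * R) * (L * (T * N2 N b))) = 1 / 520 * (T * N2 N b) := by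
        field_simp
        ring
      have h6 : 0 < 2 * (R / L) := by positivity
      exact le_of_mul_le_mul_left (by rw [h5]; exact h3) h6
    refine le_trans ?_ h4
    calc c * (∑ s ∈ H370.Zf riemannZeta T (2 * T), (mz s : ℝ) * ‖dp N b s.im‖ ^ 2) ≤ c * (L * (T * N2 N b)) :=
          mul_le_mul_of_nonneg_left htot hc0.le
      _ ≤ 1 / (1040 * R) * (L * (T * N2 N b)) := by
          refine mul_le_mul_of_nonneg_right ?_ (by positivity)
          rw [le_div_iff₀ (by positivity)]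
          exact hc2
  have mN := (Nw_meas T (H / L)).1
  constructor
  · -- small gaps
    have hset : {t : ℝ | T + 2 * L < t ∧ t ≤ 2 * T - 2 * L ∧ H / Real.pi + Real.sqrt (Real.log H) / 2500 ≤ Nw T (H / L) t} =
        Set.Ioc (T + 2 * L) (2 * T - 2 * L) ∩ {t : ℝ | H / Real.pi + Real.sqrt (Real.log H) / 2500 ≤ Nw T (H / L) t} := by
      ext t
      simp only [Set.mem_ofPred_eq, Set.mem_inter_iff, Set.mem_Ioc, and_assoc]
    refine hmono2 (W := {t : ℝ | T + 2 * L < t ∧ t ≤ 2 * T - 2 * L ∧ H / Real.pi + Real.sqrt (Real.log H) / 2500 ≤ Nw T (H / L) t})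
      ?_ ?_ ?_ _ ?_
    · rw [hset]
      exact measurableSet_Ioc.inter (measurableSet_le measurable_const mN)
    · rw [hset]
      exact Set.inter_subset_left
    · refine le_trans ?_ hfl'.1
      linarith
    · intro t ht
      obtain ⟨s, hs, hst, hsm⟩ := small_of_many (H := H) (L := L) (T := T) (t := t) (c := c) hT1 hH1 hL2 hc1 (by linarith [ht.2.2])
      refine ⟨s, hs, hst.trans ?_, hsm⟩
      refine div_le_div_of_nonneg_right ?_ hL0.le
      linarith
  · -- large gaps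
    obtain ⟨h, hh⟩ : ∃ h, h = (H + R₁) / L := ⟨_, rfl⟩
    have hh0 : 0 ≤ h := by rw [hh]; positivity
    have hhL : h ≤ 1 := by
      rw [hh, div_le_one hL0]
      linarith
    set A : Set ℝ := {t : ℝ | T + 2 * L < t ∧ t ≤ 2 * T - 2 * L ∧ Nw T (H / L) t ≤ H / Real.pi - Real.sqrt (Real.log H) / 2500} with hA
    set E : Set ℝ := {t : ℝ | T + 2 * L < t ∧ t ≤ 2 * T - 2 * L ∧ Zo (t - h) (R₁ / L) = ∅} with hEd
    have hset : A = Set.Ioc (T + 2 * L) (2 * T - 2 * L) ∩ {t : ℝ | Nw T (H / L) t ≤ H / Real.pi - Real.sqrt (Real.log H) / 2500} := by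
      ext t
      simp only [hA, Set.mem_ofPred_eq, Set.mem_inter_iff, Set.mem_Ioc, and_assoc]
    have hmA : MeasurableSet A := by
      rw [hset]
      exact measurableSet_Ioc.inter (measurableSet_le mN measurable_const)
    have hmZ : MeasurableSet {t : ℝ | Zo t (R₁ / L) = ∅} := by
      have h1 := (Pool.Agent.Q178.UM.ZF.t_ZF.2 (R₁ / L) 1).compl
      have e : {t : ℝ | Zo t (R₁ / L) = ∅} = {t : ℝ | 1 ≤ (Zo t (R₁ / L)).ncard}ᶜ := by
        ext t
        simp only [Set.mem_ofPred_eq, Set.mem_compl_iff, not_le, Nat.lt_one_iff]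
        rw [Set.ncard_eq_zero (Pool.Agent.Q178.UM.ZF.t_ZF.1 t (R₁ / L))]
      rw [e]
      exact h1
    have hmE : MeasurableSet E := by
      have e : E = Set.Ioc (T + 2 * L) (2 * T - 2 * L) ∩ (fun t => t - h) ⁻¹' {t : ℝ | Zo t (R₁ / L) = ∅} := by
        ext t
        simp only [hEd, Set.mem_ofPred_eq, Set.mem_inter_iff, Set.mem_Ioc, Set.mem_preimage, and_assoc]
      rw [e]
      exact measurableSet_Ioc.inter (hmZ.preimage (by fun_prop))
    have hEm : ∫ t in E, ‖dp N b t‖ ^ 2 ≤ 1 / 260 * T * N2 N b :=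
      before_mass hh0 (x := T + 2 * L) (y := 2 * T - 2 * L) (by linarith) (by linarith) b hE'
    have hVc : Continuous fun t => ‖dp N b t‖ ^ 2 := by
      have := dp_cont N b
      fun_prop
    have hVi : IntegrableOn (fun t => ‖dp N b t‖ ^ 2) (Set.Ioc (T + 2 * L) (2 * T - 2 * L)) :=
      (hVc.integrableOn_Icc).mono_set Set.Ioc_subset_Icc_self
    have hAs : A ⊆ Set.Ioc (T + 2 * L) (2 * T - 2 * L) := by
      rw [hset]
      exact Set.inter_subset_left
    have hEs : E ⊆ Set.Ioc (T + 2 * L) (2 * T - 2 * L) := fun t ht => ⟨ht.1, ht.2.1⟩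
    refine hmono2 (W := A \ E) (hmA.diff hmE) (Set.sdiff_subset.trans hAs) ?_ _ ?_
    · have h1 : ∫ t in A, ‖dp N b t‖ ^ 2 ≤ (∫ t in A \ E, ‖dp N b t‖ ^ 2) + ∫ t in E, ‖dp N b t‖ ^ 2 := by
        have h2 : A ⊆ (A \ E) ∪ E := by
          rw [Set.sdiff_union_self]
          exact Set.subset_union_left
        have h3 : ∫ t in A, ‖dp N b t‖ ^ 2 ≤ ∫ t in (A \ E) ∪ E, ‖dp N b t‖ ^ 2 := by
          refine setIntegral_mono_set ?_ (Eventually.of_forall fun t => by positivity) (Eventually.of_forall h2)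
          exact hVi.mono_set (Set.union_subset (Set.sdiff_subset.trans hAs) hEs)
        rw [setIntegral_union Set.disjoint_sdiff_left hmE (hVi.mono_set (Set.sdiff_subset.trans hAs)) (hVi.mono_set hEs)] at h3
        exact h3
      linarith [hfl'.2]
    · intro t ht
      have hne : Zo (t - h) (R₁ / L) ≠ ∅ := fun hcon => ht.2 ⟨ht.1.1, ht.1.2.1, hcon⟩
      obtain ⟨u, hu⟩ := Set.nonempty_iff_ne_empty.2 hne
      have hu1 := abs_le.1 hu.1
      have hz := Pool.Agent.Q178.UM.ZF.zero_of_odd hu.2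
      have hhe : h = H / L + R₁ / L := by rw [hh]; ring
      have e2 : (H + 2 * R₁) / L = H / L + R₁ / L + R₁ / L := by ring
      obtain ⟨s, hs, hst, hsm⟩ := large_of_few (H := H) (L := L) (T := T) (t := t) (c := c) (ρ := (H + 2 * R₁) / L) hT1 hH1 hL2 hc1'
        (by
          have h1 : (H + 2 * R₁) / L ≤ 1 := by
            rw [div_le_one hL0]
            linarith
          linarith [ht.1.1]) (by linarith [ht.1.2.1]) (by linarith [ht.1.2.2]) (s₁ := 1 / 2 + u * I) hz (by simp) (by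
            simp
            norm_num)
        (by
          have : (1 / 2 + u * I : ℂ).im = u := by simp
          rw [this, e2]
          linarith [hu1.1]) (by
          have : (1 / 2 + u * I : ℂ).im = u := by simp
          rw [this]
          linarith [hu1.2])
      refine ⟨s, hs, hst.trans ?_, hsm⟩
      refine max_le ?_ ?_
      · exact div_le_div_of_nonneg_right hR1 hL0.le
      · refine div_le_div_of_nonneg_right ?_ hL0.le
        linarith

end

end Pool.Agent.U196.UV
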