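import Pool.Agent.U196.UV.Prime

set_option autoImplicit false

/-!
# Project UV (helper196): the first, second and fourth moment of the real part, relative to a Dirichlet polynomial
-/

namespace Pool.Agent.U196.UV

open Filter Topology MeasureTheory Complex
open scoped ComplexConjugate
open Pool.Agent.Q97.UM
open Pool.Agent.Q150.UM (N2_nonneg dp_cont)

noncomputable section

variable {N M : ℕ} {A : ℕ → Prop} [DecidablePred A] {α b : ℕ → ℂ}

/-- moments -/
theorem moments {C₀ : ℝ} (hC₀ : 1 ≤ C₀) (hMV : MVC C₀) (hDPM : S_DPM) (hA : ∀ n, A n → n.Prime ∧ N < n) (hAM : ∀ n, A n → n ≤ M)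
    (hb : ∀ n, N < n → b n = 0) (hN : 1 ≤ N) (hM : 1 ≤ M) {x y : ℝ} (hxy : x ≤ y) {s err : ℝ}
    (hs : s = ∑ p ∈ (Finset.Icc 1 M).filter A, ‖α p‖ ^ 2 / p)
    (herr : err = C₀ * ((N * M * M : ℕ) : ℝ) * (1 + Real.log ((N * M * M : ℕ) : ℝ))) :
    |(∫ t in x..y, (2 * (dp M (res A α) t).re) ^ 2 * ‖dp N b t‖ ^ 2) - 2 * (y - x) * s * N2 N b| ≤
      err * (2 * s ^ 2 + 2 * s + 1) * N2 N b ∧
    |∫ t in x..y, (2 * (dp M (res A α) t).re) * ‖dp N b t‖ ^ 2| ≤ err * (s + 1) * N2 N b ∧
    (∫ t in x..y, (2 * (dp M (res A α) t).re) ^ 4 * ‖dp N b t‖ ^ 2) ≤ 32 * ((y - x) + err) * s ^ 2 * N2 N b := by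
  have hn2 := N2_nonneg N b
  have hs0 : 0 ≤ s := by
    rw [hs]
    exact Finset.sum_nonneg fun p _ => by positivity
  have haM : ∀ n, M < n → res A α n = 0 := by
    intro n hn
    unfold res
    rw [if_neg]
    intro h
    have := hAM n h
    omega
  have hNM : 1 ≤ N * M := Nat.mul_pos hN hM
  have hX : 1 ≤ N * M * M := Nat.mul_pos hNM hM
  have hNMX : N * M ≤ N * M * M := Nat.le_mul_of_pos_right _ hM
  have hNX : N ≤ N * M * M := (Nat.le_mul_of_pos_right _ hM).trans hNMX
  -- the products
  have p1 : ∀ t, dp M (res A α) t * dp N b t = dp (N * M) (cv (res A α) b) t := by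
    intro t
    rw [hDPM.1 M N _ _ t haM hb, mul_comm M N]
  have hcs := cv_supp (α := α) hAM hb
  have p2 : ∀ t, dp M (res A α) t * (dp M (res A α) t * dp N b t) = dp (N * M * M) (cv (res A α) (cv (res A α) b)) t := by
    intro t
    rw [p1, hDPM.1 M (N * M) _ _ t haM hcs, mul_comm M (N * M)]
  have q1 : ∀ t, dp (N * M) (cv (res A α) b) t = dp (N * M * M) (cv (res A α) b) t := fun t => (dp_mono hNMX hcs t).1
  have q2 : N2 (N * M * M) (cv (res A α) b) = s * N2 N b := by
    rw [← (dp_mono hNMX hcs 0).2, N2_two hA hAM hb, ← hs]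
  have q3 : ∀ t, dp N b t = dp (N * M * M) b t := fun t => (dp_mono hNX hb t).1
  have q4 : N2 (N * M * M) b = N2 N b := ((dp_mono hNX hb 0).2).symm
  have q5 := N2_four (α := α) hA hAM hb
  rw [← hs] at q5
  have herr0 : 0 ≤ err := by
    rw [herr]
    have : (1 : ℝ) ≤ ((N * M * M : ℕ) : ℝ) := by exact_mod_cast hX
    have := Real.log_nonneg this
    positivity
  have hPc := dp_cont M (res A α)
  have hBc := dp_cont N b
  -- the mean squares
  have m1 := hMV x y hxy (N * M * M) (cv (res A α) b) hX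
  rw [← herr, q2] at m1
  have m2 := hMV x y hxy (N * M * M) (cv (res A α) (cv (res A α) b)) hX
  rw [← herr] at m2
  have m3 := ortho hMV hX (c := cv (res A α) b) (b := b) (fun n => by
    rcases le_or_gt n N with h | h
    · exact Or.inl (cv_big (α := α) (c := b) hA n h)
    · exact Or.inr (hb n h)) hxy
  rw [← herr, q2, q4] at m3
  have m4 := ortho hMV hX (c := cv (res A α) (cv (res A α) b)) (b := b) (fun n => by
    rcases le_or_gt n N with h | h
    · exact Or.inl (cv_big (α := α) (c := cv (res A α) b) hA n h)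
    · exact Or.inr (hb n h)) hxy
  rw [← herr, q4] at m4
  refine ⟨?_, ?_, ?_⟩
  · have e : (∫ t in x..y, (2 * (dp M (res A α) t).re) ^ 2 * ‖dp N b t‖ ^ 2) =
        2 * (∫ t in x..y, ‖dp (N * M * M) (cv (res A α) b) t‖ ^ 2) +
        2 * ∫ t in x..y, (dp (N * M * M) (cv (res A α) (cv (res A α) b)) t * conj (dp (N * M * M) b t)).re := by
      rw [← intervalIntegral.integral_const_mul, ← intervalIntegral.integral_const_mul, ← intervalIntegral.integral_add]
      · refine intervalIntegral.integral_congr fun t _ => ?_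
        simp only [← q1 t, ← q3 t, ← p2 t, ← p1 t]
        have n1 : ‖dp M (res A α) t * dp N b t‖ ^ 2 = Complex.normSq (dp M (res A α) t) * Complex.normSq (dp N b t) := by
          rw [← Complex.normSq_eq_norm_sq, Complex.normSq_mul]
        have n2 : ‖dp N b t‖ ^ 2 = Complex.normSq (dp N b t) := (Complex.normSq_eq_norm_sq _).symm
        rw [n1, n2]
        have e1 : dp M (res A α) t * (dp M (res A α) t * dp N b t) * conj (dp N b t) =
            dp M (res A α) t * dp M (res A α) t * (Complex.normSq (dp N b t) : ℂ) := by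
          rw [Complex.normSq_eq_conj_mul_self]
          ring
        rw [e1, Complex.re_mul_ofReal, Complex.mul_re, Complex.normSq_apply (dp M (res A α) t)]
        ring
      · have := dp_cont (N * M * M) (cv (res A α) b)
        exact (Continuous.intervalIntegrable (by fun_prop) _ _)
      · have h1 := dp_cont (N * M * M) (cv (res A α) (cv (res A α) b))
        have h2 := dp_cont (N * M * M) b
        exact (Continuous.intervalIntegrable (by fun_prop) _ _)
    rw [e]
    have h1 := abs_le.1 m1
    have h2 := abs_le.1 m4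
    have h3 : err / 2 * (N2 (N * M * M) (cv (res A α) (cv (res A α) b)) + N2 N b) ≤ err / 2 * (2 * s ^ 2 * N2 N b + N2 N b) :=
      mul_le_mul_of_nonneg_left (by linarith) (by positivity)
    have h4 : err * (2 * s ^ 2 + 2 * s + 1) * N2 N b = 2 * (err * (s * N2 N b)) + 2 * (err / 2 * (2 * s ^ 2 * N2 N b + N2 N b)) := by ring
    rw [abs_le, h4]
    constructor
    · linarith [h1.1, h2.1]
    · linarith [h1.2, h2.2]
  · have e : (∫ t in x..y, (2 * (dp M (res A α) t).re) * ‖dp N b t‖ ^ 2) =
        2 * ∫ t in x..y, (dp (N * M * M) (cv (res A α) b) t * conj (dp (N * M * M) b t)).re := by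
      rw [← intervalIntegral.integral_const_mul]
      refine intervalIntegral.integral_congr fun t _ => ?_
      simp only [← q1 t, ← q3 t, ← p1 t]
      have e1 : dp M (res A α) t * dp N b t * conj (dp N b t) = dp M (res A α) t * (Complex.normSq (dp N b t) : ℂ) := by
        rw [Complex.normSq_eq_conj_mul_self]
        ring
      rw [e1, Complex.re_mul_ofReal, ← Complex.normSq_eq_norm_sq]
      ring
    rw [e, abs_mul, abs_of_pos (show (0 : ℝ) < 2 by norm_num)]
    have h4 : err * (s + 1) * N2 N b = 2 * (err / 2 * (s * N2 N b + N2 N b)) := by ring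
    rw [h4]
    exact mul_le_mul_of_nonneg_left m3 (by norm_num)
  · have h1 : (∫ t in x..y, (2 * (dp M (res A α) t).re) ^ 4 * ‖dp N b t‖ ^ 2) ≤
        16 * ∫ t in x..y, ‖dp (N * M * M) (cv (res A α) (cv (res A α) b)) t‖ ^ 2 := by
      rw [← intervalIntegral.integral_const_mul]
      refine intervalIntegral.integral_mono_on hxy ?_ ?_ fun t _ => ?_
      · exact (Continuous.intervalIntegrable (by fun_prop) _ _)
      · have := dp_cont (N * M * M) (cv (res A α) (cv (res A α) b))
        exact (Continuous.intervalIntegrable (by fun_prop) _ _)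
      · rw [← p2 t, norm_mul, norm_mul]
        have h2 : (dp M (res A α) t).re ^ 2 ≤ ‖dp M (res A α) t‖ ^ 2 := by
          rw [← sq_abs]
          exact pow_le_pow_left₀ (abs_nonneg _) (Complex.abs_re_le_norm _) 2
        have h3 : (dp M (res A α) t).re ^ 4 ≤ ‖dp M (res A α) t‖ ^ 4 := by
          have h4 := pow_le_pow_left₀ (sq_nonneg _) h2 2
          calc (dp M (res A α) t).re ^ 4 = ((dp M (res A α) t).re ^ 2) ^ 2 := by ring
            _ ≤ (‖dp M (res A α) t‖ ^ 2) ^ 2 := h4
            _ = _ := by ring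
        calc (2 * (dp M (res A α) t).re) ^ 4 * ‖dp N b t‖ ^ 2 = 16 * ((dp M (res A α) t).re ^ 4 * ‖dp N b t‖ ^ 2) := by ring
          _ ≤ 16 * (‖dp M (res A α) t‖ ^ 4 * ‖dp N b t‖ ^ 2) := by
            refine mul_le_mul_of_nonneg_left ?_ (by norm_num)
            exact mul_le_mul_of_nonneg_right h3 (by positivity)
          _ = _ := by ring
    have h2 := (abs_le.1 m2).2
    have h3 : ((y - x) + err) * N2 (N * M * M) (cv (res A α) (cv (res A α) b)) ≤ ((y - x) + err) * (2 * s ^ 2 * N2 N b) :=
      mul_le_mul_of_nonneg_left q5 (by linarith)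
    linarith

end

end Pool.Agent.U196.UV
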