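import Pool.Agent.Q176.UM.QH

set_option autoImplicit false

/-!
# Project UV (helper196): number variance of the zeros relative to every Dirichlet polynomial
This file: the frequency side of the squared window has logarithmically large weighted mass.
-/

namespace Pool.Agent.U196.UV

open Filter Topology MeasureTheory Complex
open Pool.Agent.Q97.UM
open Pool.Agent.Q176.UM

noncomputable section

/-- potential function for the geometric sum -/
def GG (y : ℝ) : ℝ := 6 * y / (1 + y)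

lemma GG_step {y : ℝ} (hy : 0 < y) : min 1 (y ^ 2) / y ≤ GG (2 * y) - GG y := by
  unfold GG
  have h1 : 6 * (2 * y) / (1 + 2 * y) - 6 * y / (1 + y) = 6 * y / ((1 + 2 * y) * (1 + y)) := by
    field_simp
    ring
  rw [h1, div_le_div_iff₀ hy (by positivity)]
  rcases le_total y 1 with h | h
  · have h2 : min 1 (y ^ 2) ≤ y ^ 2 := min_le_right _ _
    have h3 : y ^ 2 * ((1 + 2 * y) * (1 + y)) ≤ y ^ 2 * 6 := by
      apply mul_le_mul_of_nonneg_left _ (by positivity)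
      nlinarith
    calc min 1 (y ^ 2) * ((1 + 2 * y) * (1 + y)) ≤ y ^ 2 * ((1 + 2 * y) * (1 + y)) :=
          mul_le_mul_of_nonneg_right h2 (by positivity)
      _ ≤ y ^ 2 * 6 := h3
      _ = 6 * y * y := by ring
  · have h2 : min 1 (y ^ 2) ≤ 1 := min_le_left _ _
    calc min 1 (y ^ 2) * ((1 + 2 * y) * (1 + y)) ≤ 1 * ((1 + 2 * y) * (1 + y)) :=
          mul_le_mul_of_nonneg_right h2 (by positivity)
      _ ≤ 6 * y * y := by nlinarith

lemma GG_le {y : ℝ} (hy : 0 ≤ y) : GG y ≤ 6 ∧ 0 ≤ GG y := by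
  unfold GG
  constructor
  · rw [div_le_iff₀ (by positivity)]
    linarith
  · positivity

/-- the geometric sum of `sin²` -/
lemma geo_sum (v h₀ : ℝ) (h0 : 0 < h₀) (J : ℕ) :
    ∑ j ∈ Finset.range J, Real.sin (v * (h₀ * 2 ^ j) / 2) ^ 2 / (h₀ * 2 ^ j) ≤ 3 * |v| := by
  rcases eq_or_ne v 0 with rfl | hv
  · simp
  have hv' : 0 < |v| := abs_pos.2 hv
  have key : ∀ j : ℕ, Real.sin (v * (h₀ * 2 ^ j) / 2) ^ 2 / (h₀ * 2 ^ j) ≤
      |v| / 2 * (GG (|v| * h₀ / 2 * 2 ^ (j + 1)) - GG (|v| * h₀ / 2 * 2 ^ j)) := by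
    intro j
    set y := |v| * h₀ / 2 * 2 ^ j with hy
    have hy0 : 0 < y := by positivity
    have h1 : Real.sin (v * (h₀ * 2 ^ j) / 2) ^ 2 ≤ min 1 (y ^ 2) := by
      refine le_min (Real.sin_sq_le_one _) ?_
      have h2 : |Real.sin (v * (h₀ * 2 ^ j) / 2)| ≤ |v * (h₀ * 2 ^ j) / 2| := Real.abs_sin_le_abs
      have h3 : |v * (h₀ * 2 ^ j) / 2| = y := by
        rw [hy, abs_div, abs_mul, abs_of_pos (show 0 < h₀ * 2 ^ j by positivity), abs_of_pos (show (0 : ℝ) < 2 by norm_num)]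
        ring
      rw [h3] at h2
      calc Real.sin (v * (h₀ * 2 ^ j) / 2) ^ 2 = |Real.sin (v * (h₀ * 2 ^ j) / 2)| ^ 2 := (sq_abs _).symm
        _ ≤ y ^ 2 := pow_le_pow_left₀ (abs_nonneg _) h2 2
    have h4 := GG_step hy0
    have h5 : |v| * h₀ / 2 * 2 ^ (j + 1) = 2 * y := by rw [hy, pow_succ]; ring
    rw [h5]
    calc Real.sin (v * (h₀ * 2 ^ j) / 2) ^ 2 / (h₀ * 2 ^ j) ≤ min 1 (y ^ 2) / (h₀ * 2 ^ j) :=
          div_le_div_of_nonneg_right h1 (by positivity)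
      _ = |v| / 2 * (min 1 (y ^ 2) / y) := by
          rw [show h₀ * 2 ^ j = 2 * y / |v| by rw [hy]; field_simp]
          field_simp
      _ ≤ |v| / 2 * (GG (2 * y) - GG y) := mul_le_mul_of_nonneg_left h4 (by positivity)
  calc ∑ j ∈ Finset.range J, Real.sin (v * (h₀ * 2 ^ j) / 2) ^ 2 / (h₀ * 2 ^ j) ≤
      ∑ j ∈ Finset.range J, |v| / 2 * (GG (|v| * h₀ / 2 * 2 ^ (j + 1)) - GG (|v| * h₀ / 2 * 2 ^ j)) :=
        Finset.sum_le_sum fun j _ => key j
    _ = |v| / 2 * (GG (|v| * h₀ / 2 * 2 ^ J) - GG (|v| * h₀ / 2 * 2 ^ 0)) := by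
        rw [← Finset.mul_sum, Finset.sum_range_sub (fun j => GG (|v| * h₀ / 2 * 2 ^ j))]
    _ ≤ |v| / 2 * 6 := by
        apply mul_le_mul_of_nonneg_left _ (by positivity)
        have h1 := (GG_le (y := |v| * h₀ / 2 * 2 ^ J) (by positivity)).1
        have h2 := (GG_le (y := |v| * h₀ / 2 * 2 ^ 0) (by positivity)).2
        linarith
    _ = 3 * |v| := by ring

variable {δ H C : ℝ} {K : ℕ} {w : ℝ → ℝ}

lemma cpw (hw : OmW δ H C K w) : Cp δ w := by
  refine ⟨?_, hw.supp⟩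
  obtain ⟨D, hD⟩ := hw.lip
  refine continuous_iff_continuousAt.2 fun x => ?_
  rw [ContinuousAt, tendsto_iff_dist_tendsto_zero]
  have h1 : Tendsto (fun y : ℝ => D * |y - x|) (𝓝 x) (𝓝 0) := by
    have h2 : Continuous fun y : ℝ => D * |y - x| := by fun_prop
    have h3 := h2.tendsto x
    simpa using h3
  refine squeeze_zero (fun y => dist_nonneg) (fun y => ?_) h1
  rw [Real.dist_eq]
  exact hD y x

lemma cpq (hδ : 0 < δ) (hδ1 : δ ≤ 1) (hH : 1 ≤ H) (hC : 1 ≤ C) (hK : 2 ≤ K) (hw : OmW δ H C K w) : Cp (2 * δ) (qh w) := by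
  obtain ⟨⟨D, hD⟩, -, h3, -⟩ := t_QH δ H C K w hδ hδ1 hH hC hK hw
  refine ⟨?_, h3⟩
  refine continuous_iff_continuousAt.2 fun x => ?_
  rw [ContinuousAt, tendsto_iff_dist_tendsto_zero]
  have h1 : Tendsto (fun y : ℝ => D * |y - x|) (𝓝 x) (𝓝 0) := by
    have h2 : Continuous fun y : ℝ => D * |y - x| := by fun_prop
    have h3 := h2.tendsto x
    simpa using h3
  refine squeeze_zero (fun y => dist_nonneg) (fun y => ?_) h1
  rw [Real.dist_eq]
  exact hD y x

/-- Plancherel for the difference -/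
lemma diff_planch (hq : Cp (2 * δ) (qh w)) (h : ℝ) :
    Integrable (fun x : ℝ => ‖om (qh w) ((x + h / 2 : ℝ) : ℂ) - om (qh w) ((x - h / 2 : ℝ) : ℂ)‖ ^ 2) ∧
    ∫ x : ℝ, ‖om (qh w) ((x + h / 2 : ℝ) : ℂ) - om (qh w) ((x - h / 2 : ℝ) : ℂ)‖ ^ 2 =
      8 * Real.pi * ∫ v, qh w v ^ 2 * Real.sin (v * h / 2) ^ 2 := by
  set f : ℝ → ℝ := fun v => qh w v * (2 * Real.sin (v * h / 2)) with hf
  have hcp : Cp (2 * δ) f := by
    refine ⟨?_, fun v hv => ?_⟩
    · have := hq.cont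
      simp only [hf]
      fun_prop
    · simp only [hf]
      rw [hq.supp v hv, zero_mul]
  have hE : ∀ x : ℝ, ‖om f x‖ = ‖om (qh w) ((x + h / 2 : ℝ) : ℂ) - om (qh w) ((x - h / 2 : ℝ) : ℂ)‖ := by
    intro x
    have i1 := hq.intE ((x + h / 2 : ℝ) : ℂ)
    have i2 := hq.intE ((x - h / 2 : ℝ) : ℂ)
    have e1 : om (qh w) ((x + h / 2 : ℝ) : ℂ) - om (qh w) ((x - h / 2 : ℝ) : ℂ) = I * om f x := by
      unfold om
      rw [← integral_sub i1 i2, ← integral_const_mul]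
      congr 1
      funext v
      simp only [hf]
      have e2 : cexp (I * (v * ((x + h / 2 : ℝ) : ℂ))) = cexp (I * (v * x)) * cexp ((v * h / 2 : ℝ) * I) := by
        rw [← Complex.exp_add]
        congr 1
        push_cast
        ring
      have e3 : cexp (I * (v * ((x - h / 2 : ℝ) : ℂ))) = cexp (I * (v * x)) * cexp (-(v * h / 2 : ℝ) * I) := by
        rw [← Complex.exp_add]
        congr 1
        push_cast
        ring
      have e4 : (Real.sin (v * h / 2) : ℂ) = (cexp (-(v * h / 2 : ℝ) * I) - cexp ((v * h / 2 : ℝ) * I)) * I / 2 := by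
        rw [Complex.ofReal_sin]
        rw [Complex.sin]
      rw [e2, e3]
      push_cast at e4 ⊢
      rw [e4]
      ring_nf
      rw [I_sq]
      ring
    rw [e1, norm_mul, norm_I, one_mul]
  obtain ⟨h1, h2⟩ := planch hcp
  simp only [hE] at h1 h2
  refine ⟨h1, h2.trans ?_⟩
  rw [show 8 * Real.pi * ∫ v, qh w v ^ 2 * Real.sin (v * h / 2) ^ 2 =
    2 * Real.pi * (4 * ∫ v, qh w v ^ 2 * Real.sin (v * h / 2) ^ 2) by ring]
  congr 1
  rw [← integral_const_mul]
  congr 1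
  funext v
  simp only [hf]
  ring

/-- values of the squared window -/
lemma om_val (_hH : 1 ≤ H) (hC : 1 ≤ C) (hK : 2 ≤ K) (hw : OmW δ H C K w) (x : ℝ) :
    (|x| ≤ H - 8 * C → 3 / 4 ≤ (om w x).re ∧ (om w x).re ≤ 1) ∧ (H + 8 * C ≤ |x| → 0 ≤ (om w x).re ∧ (om w x).re ≤ 1 / 8) := by
  have hu := hw.unit x
  have hpow : ∀ y : ℝ, 8 * C ≤ y → C / (1 + y) ^ K ≤ 1 / 8 := by
    intro y hy
    have h1 : (1 + y) ^ 2 ≤ (1 + y) ^ K := pow_le_pow_right₀ (by linarith) hK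
    rw [div_le_div_iff₀ (by have : 0 < 1 + y := by linarith
                            positivity) (by norm_num)]
    nlinarith
  constructor
  · intro hx
    have h1 := hw.near (x : ℂ) (by rw [Complex.ofReal_re]; linarith)
    rw [Complex.ofReal_re, Complex.ofReal_im, abs_zero, mul_zero, Real.exp_zero, mul_one] at h1
    have h2 := h1.trans (hpow (H - |x|) (by linarith))
    have h3 : |(om w x - 1).re| ≤ 1 / 8 := (Complex.abs_re_le_norm _).trans h2
    rw [Complex.sub_re, Complex.one_re] at h3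
    have := (abs_le.1 h3).1
    exact ⟨by linarith, hu.2.2⟩
  · intro hx
    have h1 := hw.far (x : ℂ) (by rw [Complex.ofReal_re]; linarith)
    rw [Complex.ofReal_re, Complex.ofReal_im, abs_zero, mul_zero, Real.exp_zero, mul_one] at h1
    have h2 := h1.trans (hpow (|x| - H) (by linarith))
    have h3 : |(om w x).re| ≤ 1 / 8 := (Complex.abs_re_le_norm _).trans h2
    exact ⟨hu.2.1, (abs_le.1 h3).2⟩

/-- the squared window changes by at least `1/2` across the edge -/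
lemma om_jump (hδ : 0 < δ) (hδ1 : δ ≤ 1) (hH : 1 ≤ H) (hC : 1 ≤ C) (hK : 2 ≤ K) (hw : OmW δ H C K w) {x h : ℝ}
    (h1 : |x - h / 2| ≤ H - 8 * C) (h2 : H + 8 * C ≤ |x + h / 2|) :
    1 / 4 ≤ ‖om (qh w) ((x + h / 2 : ℝ) : ℂ) - om (qh w) ((x - h / 2 : ℝ) : ℂ)‖ ^ 2 := by
  obtain ⟨-, -, -, h4, -⟩ := t_QH δ H C K w hδ hδ1 hH hC hK hw
  have e : ∀ z : ℝ, om (qh w) (z : ℂ) = ((om w z).re ^ 2 : ℝ) := by
    intro z
    have h5 : om (qh w) (z : ℂ) = om w z ^ 2 := (h4 z).symm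
    rw [h5]
    have h6 : om w z = ((om w z).re : ℂ) := by
      apply Complex.ext
      · simp
      · simpa using (hw.unit z).1
    rw [h6]
    push_cast
    simp
  rw [e, e, ← Complex.ofReal_sub, Complex.norm_real, Real.norm_eq_abs, sq_abs]
  have a1 := (om_val hH hC hK hw (x - h / 2)).1 h1
  have a2 := (om_val hH hC hK hw (x + h / 2)).2 h2
  have a3 : (om w ((x + h / 2 : ℝ) : ℂ)).re ^ 2 ≤ 1 / 64 := by nlinarith
  have a4 : 9 / 16 ≤ (om w ((x - h / 2 : ℝ) : ℂ)).re ^ 2 := by nlinarith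
  nlinarith

/-- lower bound for each shift -/
lemma diff_lower (hδ : 0 < δ) (hδ1 : δ ≤ 1) (hH : 1 ≤ H) (hC : 1 ≤ C) (hK : 2 ≤ K) (hw : OmW δ H C K w) {h : ℝ}
    (h1 : 32 * C ≤ h) (h2 : h ≤ 2 * H - 16 * C) :
    h / (256 * Real.pi) ≤ ∫ v, qh w v ^ 2 * Real.sin (v * h / 2) ^ 2 := by
  have hp := Real.pi_pos
  obtain ⟨i1, i2⟩ := diff_planch (cpq hδ hδ1 hH hC hK hw) h
  set F : ℝ → ℝ := fun x => ‖om (qh w) ((x + h / 2 : ℝ) : ℂ) - om (qh w) ((x - h / 2 : ℝ) : ℂ)‖ ^ 2 with hF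
  set S : Set ℝ := Set.Icc (H + 8 * C - h / 2) (H - 8 * C + h / 2) with hS
  have h3 : ∀ x ∈ S, 1 / 4 ≤ F x := by
    intro x hx
    rw [hS, Set.mem_Icc] at hx
    refine om_jump hδ hδ1 hH hC hK hw ?_ ?_
    · rw [abs_le]
      constructor
      · linarith
      · linarith
    · exact (by linarith : H + 8 * C ≤ x + h / 2).trans (le_abs_self _)
  have h4 : ∫ x in S, (1 / 4 : ℝ) ≤ ∫ x in S, F x :=
    setIntegral_mono_on (integrableOn_const (by rw [hS]; simp)) i1.integrableOn measurableSet_Icc h3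
  have h5 : ∫ x in S, F x ≤ ∫ x, F x :=
    setIntegral_le_integral i1 (Eventually.of_forall fun x => by positivity)
  have h6 : ∫ x in S, (1 / 4 : ℝ) = (h - 16 * C) / 4 := by
    rw [setIntegral_const, hS, Real.volume_real_Icc_of_le (by linarith), smul_eq_mul]
    ring
  rw [h6] at h4
  rw [i2] at h5
  have h7 : h / 8 ≤ (h - 16 * C) / 4 := by linarith
  have h8 := (h7.trans h4).trans h5
  rw [div_le_iff₀ (by positivity)]
  have h9 : h ≤ 64 * Real.pi * ∫ v, qh w v ^ 2 * Real.sin (v * h / 2) ^ 2 := by linarith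
  have h10 : 0 ≤ ∫ v, qh w v ^ 2 * Real.sin (v * h / 2) ^ 2 := integral_nonneg fun v => by positivity
  nlinarith

/-- **the weighted mass is at least of the order of the number of dyadic scales** -/
theorem freq_lower (hδ : 0 < δ) (hδ1 : δ ≤ 1) (hH : 1 ≤ H) (hC : 1 ≤ C) (hK : 2 ≤ K) (hw : OmW δ H C K w) (J : ℕ)
    (hJ : 16 * C * 2 ^ J + 8 * C ≤ H) :
    (J : ℝ) / (768 * Real.pi) ≤ ∫ v, qh w v ^ 2 * |v| := by
  have hp := Real.pi_pos
  have hq := cpq hδ hδ1 hH hC hK hw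
  have hint : ∀ g : ℝ → ℝ, Continuous g → Integrable (fun v => qh w v ^ 2 * g v) := by
    intro g hg
    refine Continuous.integrable_of_hasCompactSupport ?_ ?_
    · have := hq.cont
      fun_prop
    · have h1 : HasCompactSupport (fun v => qh w v ^ 2) := hq.comp.comp_left (g := fun x : ℝ => x ^ 2) (by simp)
      exact h1.mul_right
  have h1 : ∀ j ∈ Finset.range J, 1 / (256 * Real.pi) ≤
      ∫ v, qh w v ^ 2 * (Real.sin (v * (32 * C * 2 ^ j) / 2) ^ 2 / (32 * C * 2 ^ j)) := by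
    intro j hj
    rw [Finset.mem_range] at hj
    have h2 : (1 : ℝ) ≤ 2 ^ j := one_le_pow₀ (by norm_num)
    have h3 : (2 : ℝ) ^ (j + 1) ≤ 2 ^ J := pow_le_pow_right₀ (by norm_num) (by omega)
    rw [pow_succ] at h3
    have h0 : 0 < 32 * C * 2 ^ j := by positivity
    have h4 := diff_lower hδ hδ1 hH hC hK hw (h := 32 * C * 2 ^ j) (by nlinarith) (by nlinarith)
    have h5 : (∫ v, qh w v ^ 2 * (Real.sin (v * (32 * C * 2 ^ j) / 2) ^ 2 / (32 * C * 2 ^ j))) =
        (∫ v, qh w v ^ 2 * Real.sin (v * (32 * C * 2 ^ j) / 2) ^ 2) / (32 * C * 2 ^ j) := by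
      rw [← integral_div]
      congr 1
      funext v
      ring
    rw [h5, le_div_iff₀ h0]
    refine (le_of_eq ?_).trans h4
    ring
  have h2 : ∑ j ∈ Finset.range J, (1 / (256 * Real.pi)) ≤
      ∑ j ∈ Finset.range J, ∫ v, qh w v ^ 2 * (Real.sin (v * (32 * C * 2 ^ j) / 2) ^ 2 / (32 * C * 2 ^ j)) :=
    Finset.sum_le_sum h1
  rw [Finset.sum_const, Finset.card_range, nsmul_eq_mul, ← integral_finsetSum _ (fun j _ => hint _ (by fun_prop))] at h2
  have h3 : (∫ v, ∑ j ∈ Finset.range J, qh w v ^ 2 * (Real.sin (v * (32 * C * 2 ^ j) / 2) ^ 2 / (32 * C * 2 ^ j))) ≤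
      ∫ v, 3 * (qh w v ^ 2 * |v|) := by
    refine integral_mono (integrable_finsetSum _ fun j _ => hint _ (by fun_prop)) ((hint _ continuous_abs).const_mul 3) fun v => ?_
    simp only []
    rw [← Finset.mul_sum]
    have h4 := geo_sum v (32 * C) (by positivity) J
    have h5 := mul_le_mul_of_nonneg_left h4 (sq_nonneg (qh w v))
    linarith
  rw [integral_const_mul] at h3
  have h4 := h2.trans h3
  have h5 : (J : ℝ) / (768 * Real.pi) = J * (1 / (256 * Real.pi)) / 3 := by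
    field_simp
    ring
  rw [h5]
  linarith

end

end Pool.Agent.U196.UV
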