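import Pool.Agent.Q150.UM.PU
import Pool.Agent.Q97.UM.Base3
import Pool.Agent.U196.UV.Freq
import Pool.Agent.U196.UV.Mom

set_option autoImplicit false

/-!
# Project UV (helper196): the prime sum of the window; size of its coefficients
-/

namespace Pool.Agent.U196.UV

open Filter Topology MeasureTheory Complex
open scoped ComplexConjugate
open Pool.Agent.Q97.UM
open Pool.Agent.Q150.UM
open Pool.Agent.Q176.UM (Cp)

noncomputable section

variable {w : ℝ → ℝ} {δ D D' L : ℝ}

/-- primes in `(N, M]` -/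
def BP (N M p : ℕ) : Prop := p.Prime ∧ N < p ∧ p ≤ M

instance (N M : ℕ) : DecidablePred (BP N M) := fun p => by unfold BP; infer_instance

/-- the sum of the squares of the coefficients at the primes in `(N, M]` -/
def sP (w : ℝ → ℝ) (L : ℝ) (N M : ℕ) : ℝ := ∑ p ∈ (Finset.Icc 1 M).filter (BP N M), ‖al' w L 0 M p‖ ^ 2 / p

lemma filter_BP (N M : ℕ) : (Finset.Icc 1 M).filter (BP N M) = bigP N M := by
  unfold bigP
  refine Finset.filter_congr fun p hp => ?_
  rw [Finset.mem_Icc] at hp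
  unfold BP
  exact ⟨fun h => ⟨h.1, h.2.1⟩, fun h => ⟨h.1, h.2, hp.2⟩⟩

/-- closeness of the smoothed function -/
lemma ql_near {H C : ℝ} {K : ℕ} (hδ : 0 < δ) (hδ1 : δ ≤ 1) (hH : 1 ≤ H) (hC : 1 ≤ C) (hK : 2 ≤ K) (hw : OmW δ H C K w) :
    ∃ D' : ℝ, 0 ≤ D' ∧ (∀ v, |qh w v| ≤ D') ∧ ∀ L : ℝ, 1 ≤ L → ∀ x : ℝ, |QL w L x - qh w (x / L)| ≤ D' / L := by
  obtain ⟨⟨D0, hD0⟩, -, h3, -⟩ := Pool.Agent.Q176.UM.t_QH δ H C K w hδ hδ1 hH hC hK hw
  have h0 := Pool.Agent.Q247.UM.q_D0 hD0
  have hB := Pool.Agent.Q247.UM.q_bd hδ hD0 h3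
  refine ⟨2 * D0, by positivity, fun v => (hB v).trans ?_, fun L hL x => ?_⟩
  · nlinarith
  · exact Pool.Agent.Q247.UM.QG_close (Pool.Agent.Q247.UM.q_cont hD0) hB hD0 (by linarith) x

/-- lower bound of the main integral -/
lemma int_lower (hQ : QB w δ D L) (hD' : 0 ≤ D') (hB : ∀ v, |qh w v| ≤ D') (hn : ∀ x : ℝ, |QL w L x - qh w (x / L)| ≤ D' / L)
    (hq : Cp (2 * δ) (qh w)) (he : ∀ v, qh w (-v) = qh w v) (hδ : 0 < δ) (hδ1 : δ ≤ 1 / 4) (hL : 1 ≤ L) {m : ℝ} (hm : 2 * δ * L ≤ m) :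
    (∫ v, qh w v ^ 2 * |v|) / 2 - 2 * D' ^ 2 / L ≤ (∫ x in (0 : ℝ)..m, x * QL w L x ^ 2) / L ^ 2 := by
  have hL0 : 0 < L := by linarith
  have hqc := hq.cont
  have hQc := hQ.cont
  have hδL : 0 ≤ 2 * δ * L := by positivity
  have e1 : (∫ v, qh w v ^ 2 * |v|) / 2 = ∫ v in (0 : ℝ)..(2 * δ), v * qh w v ^ 2 := by
    have h1 : ∀ v, qh w v ^ 2 * |v| = (fun x => x * qh w x ^ 2) |v| := by
      intro v
      simp only
      rcases abs_cases v with ⟨h, -⟩ | ⟨h, -⟩
      · rw [h]
        ring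
      · rw [h, he]
        ring
    simp only [h1]
    rw [integral_comp_abs (f := fun x => x * qh w x ^ 2), mul_div_assoc, mul_comm, div_mul_cancel₀ _ (by norm_num)]
    rw [intervalIntegral.integral_of_le (by positivity)]
    have h3 : ∀ x ∈ Set.Ioi (0 : ℝ) \ Set.Ioc (0 : ℝ) (2 * δ), x * qh w x ^ 2 = 0 := ?_
    · exact setIntegral_eq_of_subset_of_forall_sdiff_eq_zero measurableSet_Ioi Set.Ioc_subset_Ioi_self h3
    intro x hx
    have h2 : 2 * δ ≤ |x| := by
      rw [Set.mem_sdiff, Set.mem_Ioi, Set.mem_Ioc, not_and_or] at hx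
      rcases hx.2 with h | h
      · exact absurd hx.1 h
      · push Not at h
        exact h.le.trans (le_abs_self x)
    rw [hq.supp x h2]
    simp
  have e2 : (∫ x in (0 : ℝ)..(2 * δ * L), x * qh w (x / L) ^ 2) / L ^ 2 = ∫ v in (0 : ℝ)..(2 * δ), v * qh w v ^ 2 := by
    have h1 := intervalIntegral.integral_comp_div (a := 0) (b := 2 * δ * L) (fun v : ℝ => v * qh w v ^ 2) hL0.ne'
    rw [zero_div, mul_div_cancel_right₀ _ hL0.ne', smul_eq_mul] at h1
    have h2 : (∫ x in (0 : ℝ)..(2 * δ * L), x / L * qh w (x / L) ^ 2) = (∫ x in (0 : ℝ)..(2 * δ * L), x * qh w (x / L) ^ 2) / L := by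
      rw [← intervalIntegral.integral_div]
      refine intervalIntegral.integral_congr fun x _ => ?_
      ring
    rw [h2] at h1
    rw [pow_two, ← div_div, h1]
    field_simp
  have e3 : (∫ x in (0 : ℝ)..(2 * δ * L), x * qh w (x / L) ^ 2) - D' ^ 2 * (2 * δ * L) ≤
      ∫ x in (0 : ℝ)..(2 * δ * L), x * QL w L x ^ 2 := by
    have h1 : (∫ x in (0 : ℝ)..(2 * δ * L), (x * qh w (x / L) ^ 2 - D' ^ 2)) ≤ ∫ x in (0 : ℝ)..(2 * δ * L), x * QL w L x ^ 2 := by
      refine intervalIntegral.integral_mono_on hδL (Continuous.intervalIntegrable (by fun_prop) _ _)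
        (Continuous.intervalIntegrable (by fun_prop) _ _) fun x hx => ?_
      have h2 := hn x
      have h3 := hB (x / L)
      have h4 : qh w (x / L) ^ 2 - 2 * D' * (D' / L) ≤ QL w L x ^ 2 := by
        have h5 : |qh w (x / L)| * |QL w L x - qh w (x / L)| ≤ D' * (D' / L) := mul_le_mul h3 h2 (abs_nonneg _) hD'
        rw [← abs_mul] at h5
        have h6 := (abs_le.1 h5).1
        nlinarith [sq_nonneg (QL w L x - qh w (x / L))]
      have h5 := mul_le_mul_of_nonneg_left h4 hx.1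
      have h6 : x * (2 * D' * (D' / L)) ≤ D' ^ 2 := by
        have h7 : x * (2 * D' * (D' / L)) = (2 * x / L) * D' ^ 2 := by ring
        rw [h7]
        have h8 : 2 * x / L ≤ 1 := by
          rw [div_le_one hL0]
          have := hx.2
          nlinarith
        nlinarith [sq_nonneg D']
      linarith
    rw [intervalIntegral.integral_sub (Continuous.intervalIntegrable (by fun_prop) _ _)
      (Continuous.intervalIntegrable (by fun_prop) _ _), intervalIntegral.integral_const, smul_eq_mul, sub_zero] at h1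
    linarith
  have e4 : (∫ x in (0 : ℝ)..(2 * δ * L), x * QL w L x ^ 2) ≤ ∫ x in (0 : ℝ)..m, x * QL w L x ^ 2 := by
    rw [← intervalIntegral.integral_add_adjacent_intervals (b := 2 * δ * L) (c := m)
      (Continuous.intervalIntegrable (by fun_prop) _ _) (Continuous.intervalIntegrable (by fun_prop) _ _)]
    have h1 : 0 ≤ ∫ x in (2 * δ * L)..m, x * QL w L x ^ 2 := by
      refine intervalIntegral.integral_nonneg hm fun x hx => ?_
      have : 0 ≤ x := hδL.trans hx.1
      positivity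
    linarith
  rw [e1, ← e2]
  have e5 : 2 * D' ^ 2 / L = 2 * D' ^ 2 * L / L ^ 2 := by
    field_simp
  rw [e5, ← sub_div]
  refine div_le_div_of_nonneg_right ?_ (by positivity)
  have e6 : D' ^ 2 * (2 * δ * L) ≤ 2 * D' ^ 2 * L := by
    have : 0 ≤ D' ^ 2 * L := by positivity
    nlinarith
  linarith

/-- the sums over the primes -/
lemma s_bounds (hQ : QB w δ D L) (hD : 1 ≤ D) (hδ : 0 < δ) (hδ1 : δ ≤ 1 / 16) (hL : 1 ≤ L) (hL36 : 36 ≤ L) {C₃ C₄ : ℝ} (hC₃ : 1 ≤ C₃)
    (hM : MerC C₃) (hC₄ : 1 ≤ C₄) (hC : ConvC C₄) {θ : ℝ} (hθ : 0 < θ) (hθ1 : θ ≤ 1 / 40) (N : ℕ) (hN1 : 1 ≤ N)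
    (hN : Real.log N ≤ θ * L) (b : ℕ → ℂ) {κ : ℝ} (hκ : κ = D + 39 * C₃ * D ^ 2) :
    (∫ x in (0 : ℝ)..Real.log (MM δ L 0), x * QL w L x ^ 2) / L ^ 2 - 234 * C₃ * D ^ 2 / L - θ * (I2 w + κ / L) ≤
      sP w L N (MM δ L 0) ∧
    sP w L N (MM δ L 0) ≤ 2 * (I2 w + κ / L) ∧
    N2 (N * MM δ L 0) (cv (fun n => al' w L 0 (MM δ L 0) n - res (BP N (MM δ L 0)) (al' w L 0 (MM δ L 0)) n) (cut N b)) ≤
      C₄ * ((1 + θ * L) * ((I2 w + κ / L) / L) + 3 * D ^ 2 / L) * N2 N b := by
  have hL0 : 0 < L := by linarith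
  have hD0 : 0 ≤ D := by linarith
  have hsq : Real.sqrt L ≤ L / 6 := by
    rw [Real.sqrt_le_left (by positivity)]
    nlinarith
  obtain ⟨M, hMM⟩ : ∃ M : ℕ, M = MM δ L 0 := ⟨_, rfl⟩
  have hlM := log_MM_le hδ hL 0
  have hlM' := log_MM_ge hδ hL 0
  have hM1 : 1 ≤ M := hMM ▸ MM_pos hδ hL 0
  rw [← hMM] at hlM hlM' ⊢
  rw [max_self] at hlM
  have hM1' : (1 : ℝ) ≤ M := by exact_mod_cast hM1
  have hN1' : (1 : ℝ) ≤ N := by exact_mod_cast hN1
  have hlM2 : Real.log M ≤ 3 / 2 * L := by nlinarith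
  have hlM0 : 0 ≤ Real.log M := Real.log_nonneg hM1'
  have hlN0 : 0 ≤ Real.log N := Real.log_nonneg hN1'
  have hl2 : Real.log 2 ≤ 1 := by
    have := Real.log_le_sub_one_of_pos (show (0 : ℝ) < 2 by norm_num)
    linarith
  have hl20 : 0 ≤ Real.log 2 := Real.log_nonneg (by norm_num)
  have hprime : ∀ p ∈ (Finset.Icc 1 M).filter Nat.Prime, ‖al' w L 0 M p‖ ^ 2 / p =
      Real.log p ^ 2 * QL w L (Real.log p - 0) ^ 2 / (L ^ 2 * p) := by
    intro p hp
    rw [Finset.mem_filter, Finset.mem_Icc] at hp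
    unfold al'
    rw [if_pos hp.1.2, Complex.norm_real, Real.norm_eq_abs, sq_abs, ArithmeticFunction.vonMangoldt_apply_prime hp.2]
    have hp0 : (p : ℝ) ≠ 0 := by exact_mod_cast hp.2.ne_zero
    field_simp
  set f : ℕ → ℝ := fun p => Real.log p ^ 2 * QL w L (Real.log p - 0) ^ 2 / (L ^ 2 * p) with hf
  have hbig : bigP N M = ((Finset.Icc 1 M).filter Nat.Prime).filter (fun p => N < p) := by
    unfold bigP
    rw [Finset.filter_filter]
  have hsmall : smallP N M = ((Finset.Icc 1 M).filter Nat.Prime).filter (fun p => ¬ N < p) := by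
    unfold smallP
    rw [Finset.filter_filter]
    simp only [not_lt]
  have hsumS1 : sP w L N M = ∑ p ∈ bigP N M, f p := by
    unfold sP
    rw [filter_BP]
    refine Finset.sum_congr rfl fun p hp => hprime p ?_
    rw [hbig] at hp
    exact (Finset.mem_filter.1 hp).1
  have hsplit : ∑ p ∈ bigP N M, f p + ∑ p ∈ smallP N M, f p = ∑ p ∈ (Finset.Icc 1 M).filter Nat.Prime, f p := by
    rw [hbig, hsmall]
    exact Finset.sum_filter_add_sum_filter_not _ _ _
  set g : ℕ → ℝ := fun p => Real.log p * QL w L (Real.log p - 0) ^ 2 / (L * p) with hg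
  have hg0 : ∀ p ∈ (Finset.Icc 1 M).filter Nat.Prime, 0 ≤ g p := by
    intro p hp
    rw [Finset.mem_filter, Finset.mem_Icc] at hp
    have : (1 : ℝ) ≤ p := by exact_mod_cast hp.1.1
    have := Real.log_nonneg this
    simp only [hg]
    positivity
  have hall2 : ∑ p ∈ (Finset.Icc 1 M).filter Nat.Prime, g p ≤ I2 w + κ / L := by
    rw [hκ]
    refine merB hM hQ hD0 hL0 0 (by rw [abs_zero]; linarith) M hM1 ?_
    linarith
  have hsub : smallP N M ⊆ (Finset.Icc 1 M).filter Nat.Prime := by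
    rw [hsmall]
    exact Finset.filter_subset _ _
  have hsub2 : bigP N M ⊆ (Finset.Icc 1 M).filter Nat.Prime := by
    rw [hbig]
    exact Finset.filter_subset _ _
  have hA : ∑ p ∈ smallP N M, g p ≤ I2 w + κ / L :=
    (Finset.sum_le_sum_of_subset_of_nonneg hsub fun p hp _ => hg0 p hp).trans hall2
  have hB : ∑ p ∈ bigP N M, g p ≤ I2 w + κ / L :=
    (Finset.sum_le_sum_of_subset_of_nonneg hsub2 fun p hp _ => hg0 p hp).trans hall2
  have hA0 : 0 ≤ ∑ p ∈ smallP N M, g p := Finset.sum_nonneg fun p hp => hg0 p (hsub hp)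
  have hfgeq : ∀ p ∈ (Finset.Icc 1 M).filter Nat.Prime, f p = Real.log p / L * g p := by
    intro p hp
    rw [Finset.mem_filter, Finset.mem_Icc] at hp
    have hp1 : (1 : ℝ) ≤ p := by exact_mod_cast hp.1.1
    simp only [hf, hg]
    have : (p : ℝ) ≠ 0 := by linarith
    field_simp
  have hfg : ∀ p ∈ smallP N M, f p ≤ θ * g p := by
    intro p hp
    have hg0' := hg0 p (hsub hp)
    have h2 := hfgeq p (hsub hp)
    unfold smallP at hp
    rw [Finset.mem_filter, Finset.mem_Icc] at hp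
    have hp1 : (1 : ℝ) ≤ p := by exact_mod_cast hp.1.1
    have h1 : Real.log p ≤ θ * L := le_trans (Real.log_le_log (by linarith) (by exact_mod_cast hp.2.2)) hN
    rw [h2]
    refine mul_le_mul_of_nonneg_right ?_ hg0'
    rw [div_le_iff₀ hL0]
    exact h1
  have hfg2 : ∀ p ∈ bigP N M, f p ≤ 2 * g p := by
    intro p hp
    have hg0' := hg0 p (hsub2 hp)
    have h2 := hfgeq p (hsub2 hp)
    unfold bigP at hp
    rw [Finset.mem_filter, Finset.mem_Icc] at hp
    have hp1 : (1 : ℝ) ≤ p := by exact_mod_cast hp.1.1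
    have h1 : Real.log p ≤ Real.log M := Real.log_le_log (by linarith) (by exact_mod_cast hp.1.2)
    rw [h2]
    refine mul_le_mul_of_nonneg_right ?_ hg0'
    rw [div_le_iff₀ hL0]
    linarith
  have hSsm : ∑ p ∈ smallP N M, f p ≤ θ * ∑ p ∈ smallP N M, g p := by
    rw [Finset.mul_sum]
    exact Finset.sum_le_sum hfg
  have hSbig : ∑ p ∈ bigP N M, f p ≤ 2 * ∑ p ∈ bigP N M, g p := by
    rw [Finset.mul_sum]
    exact Finset.sum_le_sum hfg2
  have hall := merA hM hQ hD0 hL0 0 (by rw [abs_zero]; linarith) M hM1 (by linarith)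
  simp only [sub_zero] at hall
  have hall' := (abs_le.1 hall).1
  have hfall : ∑ p ∈ (Finset.Icc 1 M).filter Nat.Prime, Real.log p ^ 2 * QL w L (Real.log p) ^ 2 / (L ^ 2 * p) =
      ∑ p ∈ (Finset.Icc 1 M).filter Nat.Prime, f p := by
    simp only [hf, sub_zero]
  rw [hfall] at hall'
  refine ⟨?_, ?_, ?_⟩
  · rw [hsumS1]
    have h1 : θ * ∑ p ∈ smallP N M, g p ≤ θ * (I2 w + κ / L) := mul_le_mul_of_nonneg_left hA hθ.le
    linarith
  · rw [hsumS1]
    linarith
  · -- the remaining coefficients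
    set A : ℕ → ℂ := fun n => al' w L 0 M n - res (BP N M) (al' w L 0 M) n with hAdef
    have hAn : ∀ n, ‖A n‖ ≤ ArithmeticFunction.vonMangoldt n * (|QL w L (Real.log n)| / L) := by
      intro n
      have h0 : ‖al' w L 0 M n‖ ≤ ArithmeticFunction.vonMangoldt n * (|QL w L (Real.log n)| / L) := by
        unfold al'
        split_ifs
        · rw [Complex.norm_real, Real.norm_eq_abs, abs_mul, abs_of_nonneg ArithmeticFunction.vonMangoldt_nonneg, abs_div,
            abs_of_pos hL0, sub_zero]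
        · rw [norm_zero]
          exact mul_nonneg ArithmeticFunction.vonMangoldt_nonneg (by positivity)
      simp only [hAdef]
      unfold res
      split_ifs with h
      · rw [sub_self, norm_zero]
        exact mul_nonneg ArithmeticFunction.vonMangoldt_nonneg (by positivity)
      · rw [sub_zero]
        exact h0
    have hAM : ∀ n, M < n → A n = 0 := by
      intro n hn
      simp only [hAdef]
      have h1 : al' w L 0 M n = 0 := by
        unfold al'
        rw [if_neg (by omega)]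
      unfold res
      rw [h1]
      simp
    have hconv := hC N M (cut N b) A (fun n => |QL w L (Real.log n)| / L) (D / L) 1 hN1 hM1
      one_pos le_rfl (fun n => ⟨by positivity, div_le_div_of_nonneg_right (hQ.bdd _) hL0.le⟩)
      hAn hAM (fun n hn => by unfold cut; rw [if_neg (by omega)])
    have hzero : ∑ p ∈ bigP N M, ‖A p‖ ^ 2 / p = 0 := by
      refine Finset.sum_eq_zero fun p hp => ?_
      rw [← filter_BP, Finset.mem_filter] at hp
      simp only [hAdef]
      unfold res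
      rw [if_pos hp.2, sub_self, norm_zero]
      simp
    have hSig : ∑ p ∈ smallP N M, Real.log p * (|QL w L (Real.log p)| / L) ^ 2 / p = (∑ p ∈ smallP N M, g p) / L := by
      rw [Finset.sum_div]
      refine Finset.sum_congr rfl fun p hp => ?_
      unfold smallP at hp
      rw [Finset.mem_filter, Finset.mem_Icc] at hp
      have hp1 : (p : ℝ) ≠ 0 := by
        have : (1 : ℝ) ≤ p := by exact_mod_cast hp.1.1
        linarith
      simp only [hg]
      rw [div_pow, sq_abs, sub_zero]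
      field_simp
    rw [hzero, N2_cut, hSig] at hconv
    have h1 := (abs_le.1 hconv).2
    have hlog1 : Real.log (2 * (N : ℝ)) ≤ 1 + θ * L := by
      rw [Real.log_mul (by norm_num) (by linarith)]
      linarith
    have hlog2 : Real.log (2 * (N : ℝ) * M) ≤ 3 * L := by
      rw [Real.log_mul (by positivity) (by linarith), Real.log_mul (by norm_num) (by linarith)]
      nlinarith
    have hlog1' : 0 ≤ Real.log (2 * (N : ℝ)) := Real.log_nonneg (by linarith)
    have h2 : Real.log (2 * N) * ((∑ p ∈ smallP N M, g p) / L) ≤ (1 + θ * L) * ((I2 w + κ / L) / L) :=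
      mul_le_mul hlog1 (div_le_div_of_nonneg_right hA hL0.le) (by positivity) (by positivity)
    have h3 : Real.log (2 * N * M) * (D / L) ^ 2 ≤ 3 * D ^ 2 / L := by
      have h4 : Real.log (2 * N * M) * (D / L) ^ 2 ≤ 3 * L * (D / L) ^ 2 := mul_le_mul_of_nonneg_right hlog2 (by positivity)
      refine h4.trans (le_of_eq ?_)
      field_simp
    have hn2 := Pool.Agent.Q150.UM.N2_nonneg N b
    have h4 : C₄ * (Real.log (2 * N) * ((∑ p ∈ smallP N M, g p) / L) + Real.log (2 * N * M) * (D / L) ^ 2) * N2 N b ≤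
        C₄ * ((1 + θ * L) * ((I2 w + κ / L) / L) + 3 * D ^ 2 / L) * N2 N b := by
      gcongr
    refine le_trans ?_ h4
    have h5 : (1 * 0 + C₄ / 1 * (Real.log (2 * N) * ((∑ p ∈ smallP N M, g p) / L) + Real.log (2 * N * M) * (D / L) ^ 2)) * N2 N b =
        C₄ * (Real.log (2 * N) * ((∑ p ∈ smallP N M, g p) / L) + Real.log (2 * N * M) * (D / L) ^ 2) * N2 N b := by ring
    rw [h5] at h1
    linarith

end

end Pool.Agent.U196.UV
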