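import Pool.Agent.U196.UV.Main

set_option autoImplicit false

/-!
# Project UV (helper196): the number of zeros in short windows fluctuates at least like `√(log H)`, relative to every
Dirichlet polynomial
-/

namespace Pool.Agent.U196.UV

open Filter Topology MeasureTheory Complex
open scoped ComplexConjugate
open Pool.Agent.Q97.UM
open Pool.Agent.Q150.UM (MM MM_pos al' cut dp_cut N2_cut dp_cont I2_nonneg ev_log ev_loglin dp_zero)

noncomputable section

/-- choice of the number of dyadic scales -/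
lemma choose_J {Cw H : ℝ} (hCw : 1 ≤ Cw) (hH1 : 1 ≤ H) (hH : Real.exp (2 * (Real.log (32 * Cw) + 1)) ≤ H) :
    ∃ J : ℕ, 16 * Cw * 2 ^ J + 8 * Cw ≤ H ∧ Real.log H / 2 ≤ J := by
  have hH0 : 0 < H := by linarith
  have hlC : 0 ≤ Real.log (32 * Cw) := Real.log_nonneg (by linarith)
  have hl : 2 * (Real.log (32 * Cw) + 1) ≤ Real.log H := by
    rw [Real.le_log_iff_exp_le hH0]
    exact hH
  have hHC : 32 * Cw ≤ H := by
    have h1 : Real.log (32 * Cw) ≤ Real.log H := by linarith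
    exact (Real.log_le_log_iff (by positivity) hH0).1 h1
  have hl2 : 0 < Real.log 2 := Real.log_pos (by norm_num)
  have hl21 : Real.log 2 ≤ 1 := by
    have := Real.log_le_sub_one_of_pos (show (0 : ℝ) < 2 by norm_num)
    linarith
  obtain ⟨y, hy⟩ : ∃ y, y = (Real.log H - Real.log (32 * Cw)) / Real.log 2 := ⟨_, rfl⟩
  have hy0 : 0 ≤ y := by
    rw [hy]
    exact div_nonneg (by linarith) hl2.le
  refine ⟨⌊y⌋₊, ?_, ?_⟩
  · have h1 : ((⌊y⌋₊ : ℕ) : ℝ) ≤ y := Nat.floor_le hy0
    have h2 : (2 : ℝ) ^ ⌊y⌋₊ ≤ H / (32 * Cw) := by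
      rw [← Real.rpow_natCast, Real.rpow_def_of_pos (by norm_num), ← Real.exp_log (show 0 < H / (32 * Cw) by positivity)]
      apply Real.exp_le_exp.2
      rw [Real.log_div hH0.ne' (by positivity)]
      have h3 := mul_le_mul_of_nonneg_left h1 hl2.le
      rw [hy] at h3
      have h4 : Real.log 2 * ((Real.log H - Real.log (32 * Cw)) / Real.log 2) = Real.log H - Real.log (32 * Cw) := by
        field_simp
      rw [h4, ← hy] at h3
      exact h3
    rw [le_div_iff₀ (by positivity)] at h2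
    linarith
  · have h1 := Nat.lt_floor_add_one y
    have h2 : Real.log H - Real.log (32 * Cw) ≤ y := by
      rw [hy, le_div_iff₀ hl2]
      have : 0 ≤ Real.log H - Real.log (32 * Cw) := by linarith
      nlinarith
    linarith

/-- **the fluctuations of the number of zeros** -/
theorem fluct : ∃ H₀ : ℝ, 1 ≤ H₀ ∧ ∀ H : ℝ, H₀ ≤ H → ∃ θ : ℝ, 0 < θ ∧ θ ≤ 1 / 40 ∧ ∀ᶠ T : ℝ in atTop,
    ∀ N : ℕ, (N : ℝ) ≤ T ^ θ → ∀ b : ℕ → ℂ,
      T * N2 N b / 130 ≤ ∫ t in {t : ℝ | T + 2 * Real.log T < t ∧ t ≤ 2 * T - 2 * Real.log T ∧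
        H / Real.pi + Real.sqrt (Real.log H) / 2500 ≤ Nw T (H / Real.log T) t}, ‖dp N b t‖ ^ 2 ∧
      T * N2 N b / 130 ≤ ∫ t in {t : ℝ | T + 2 * Real.log T < t ∧ t ≤ 2 * T - 2 * Real.log T ∧
        Nw T (H / Real.log T) t ≤ H / Real.pi - Real.sqrt (Real.log H) / 2500}, ‖dp N b t‖ ^ 2 := by
  obtain ⟨C₀, C₆, δ, Cw, K, hC₀, hMV, hC₆, hδ0, hδ2, hCw, hK2, hap⟩ := approx
  have hpi := Real.pi_pos
  have hpi4 := Real.pi_le_four
  obtain ⟨H₀, hH₀⟩ : ∃ H₀, H₀ = max 1 (max (Real.exp (2 * (Real.log (32 * Cw) + 1)))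
    (Real.exp (6144 * Real.pi * (20 * (C₆ + 1)) ^ 2))) := ⟨_, rfl⟩
  refine ⟨H₀, by rw [hH₀]; exact le_max_left _ _, fun H hH => ?_⟩
  have hH1 : 1 ≤ H := by rw [hH₀] at hH; exact (le_max_left _ _).trans hH
  have hHa : Real.exp (2 * (Real.log (32 * Cw) + 1)) ≤ H := by
    rw [hH₀] at hH
    exact (le_max_left _ _).trans ((le_max_right _ _).trans hH)
  have hHb : 6144 * Real.pi * (20 * (C₆ + 1)) ^ 2 ≤ Real.log H := by
    rw [hH₀] at hH
    rw [Real.le_log_iff_exp_le (by linarith)]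
    exact (le_max_right _ _).trans ((le_max_right _ _).trans hH)
  obtain ⟨J, hJ1, hJ2⟩ := choose_J hCw hH1 hHa
  obtain ⟨w, hw, θ, hθ0, hθ1, hap⟩ := hap H hH1
  have hF := freq_lower hδ0 (by linarith) hH1 hCw hK2 hw J hJ1
  have hI2 := I2_nonneg w
  obtain ⟨S, hS⟩ : ∃ S, S = 2 * (I2 w + 1) := ⟨_, rfl⟩
  have hS0 : 0 ≤ S := by rw [hS]; positivity
  refine ⟨θ, hθ0, hθ1, ?_⟩
  filter_upwards [hap (1 / (1000 * (2 * S ^ 2 + 2 * S + 1))) (by positivity), ev_loglin (1 / 4000) (by norm_num), ev_log 1,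
    mass_short Pool.Agent.Q222.UM.t_MV2 (1 / 100) (by norm_num), eventually_ge_atTop (1 : ℝ)] with T hap hL8 hL1 hms hT1 N hN b
  have hT0 : 0 < T := by linarith
  obtain ⟨L, hLT⟩ : ∃ L : ℝ, L = Real.log T := ⟨_, rfl⟩
  rw [← hLT] at hap hL8 hL1 ⊢
  set V : ℝ → ℝ := fun t => ‖dp N b t‖ ^ 2 with hV
  have hVc : Continuous V := by
    have := dp_cont N b
    fun_prop
  have hV0 : ∀ t, 0 ≤ V t := fun t => by positivity
  have mN := (Nw_meas T (H / L)).1
  have hn2 := Pool.Agent.Q150.UM.N2_nonneg N b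
  rcases Nat.eq_zero_or_pos N with hN0 | hN1
  · subst hN0
    have e1 : N2 0 b = 0 := by simp [N2]
    have e2 : V = fun _ => 0 := by
      funext t
      simp [hV, dp_zero]
    rw [e1, e2]
    simp
  obtain ⟨a1, a2, a3, a4⟩ := hap N hN1 hN b
  obtain ⟨M, hMM⟩ : ∃ M : ℕ, M = MM δ L 0 := ⟨_, rfl⟩
  have hM1 : 1 ≤ M := hMM ▸ MM_pos hδ0 hL1 0
  rw [← hMM] at a1 a2 a3 a4
  obtain ⟨s, hs⟩ : ∃ s, s = sP w L N M := ⟨_, rfl⟩
  rw [← hs] at a1 a2
  obtain ⟨err, herr⟩ : ∃ err, err = C₀ * ((N * M * M : ℕ) : ℝ) * (1 + Real.log ((N * M * M : ℕ) : ℝ)) := ⟨_, rfl⟩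
  rw [← herr] at a3
  have herr0 : 0 ≤ err := by
    rw [herr]
    have h1 : 1 ≤ N * M * M := Nat.mul_pos (Nat.mul_pos hN1 hM1) hM1
    have : (1 : ℝ) ≤ ((N * M * M : ℕ) : ℝ) := by exact_mod_cast h1
    have := Real.log_nonneg this
    positivity
  -- the size of `s`
  have hsl : Real.log H / (6144 * Real.pi) ≤ s := by
    have h1 : Real.log H / 2 / (768 * Real.pi) ≤ J / (768 * Real.pi) := div_le_div_of_nonneg_right hJ2 (by positivity)
    have h2 : Real.log H / 2 / (768 * Real.pi) = 4 * (Real.log H / (6144 * Real.pi)) := by field_simp; ring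
    have h3 : 1 ≤ Real.log H / (6144 * Real.pi) := by
      rw [le_div_iff₀ (by positivity)]
      have : 1 ≤ (20 * (C₆ + 1)) ^ 2 := by nlinarith
      nlinarith
    linarith
  have hsC : (20 * (C₆ + 1)) ^ 2 ≤ s := by
    refine le_trans ?_ hsl
    rw [le_div_iff₀ (by positivity)]
    linarith
  have hs0 : 0 ≤ s := le_trans (by positivity) hsC
  have herr2 : err * (2 * s ^ 2 + 2 * s + 1) ≤ T / 1000 := by
    have hsS : s ≤ S := by rw [hS]; exact a2
    have h1 : 2 * s ^ 2 + 2 * s + 1 ≤ 2 * S ^ 2 + 2 * S + 1 := by nlinarith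
    calc err * (2 * s ^ 2 + 2 * s + 1) ≤ (1 / (1000 * (2 * S ^ 2 + 2 * S + 1)) * T) * (2 * S ^ 2 + 2 * S + 1) :=
          mul_le_mul a3 h1 (by positivity) (by positivity)
      _ = T / 1000 := by field_simp
  have hlam : Real.sqrt (Real.log H) / 2500 ≤ Real.sqrt s / 16 := by
    have h1 : Real.sqrt (Real.log H) ≤ 2500 / 16 * Real.sqrt s := by
      rw [Real.sqrt_le_left (by positivity), mul_pow, Real.sq_sqrt hs0]
      rw [div_le_iff₀ (by positivity)] at hsl
      have h2 : Real.pi < 3.15 := Real.pi_lt_d2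
      nlinarith
    linarith
  -- the moments
  have hxy : T + 2 * L ≤ 2 * T - 2 * L := by linarith
  obtain ⟨m2, m1, m4⟩ := moments (N := N) (M := M) (A := BP N M) (α := al' w L 0 M) (b := cut N b) hC₀ hMV Pool.Agent.Q84.UM.t_DPM
    (fun n hn => ⟨hn.1, hn.2.1⟩) (fun n hn => hn.2.2) (fun n hn => by unfold cut; rw [if_neg (by omega)]) hN1 hM1 hxy
    (s := s) (err := err) hs herr
  simp only [dp_cut, N2_cut] at m1 m2 m4
  have p2 := (abs_le.1 (hms N (hN.trans (Real.rpow_le_rpow_of_exponent_le hT1 hθ1)) b)).2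
  rw [← hLT] at p2
  have hV1 : (∫ t in (T + 2 * L)..(2 * T - 2 * L), V t) ≤ 101 / 100 * (T * N2 N b) := by linarith
  have hyx : |((2 * T - 2 * L) - (T + 2 * L)) - T| ≤ T / 1000 := by
    rw [show ((2 * T - 2 * L) - (T + 2 * L)) - T = -(4 * L) by ring, abs_neg, abs_of_nonneg (by positivity)]
    linarith
  have hPc : Continuous fun t => (Pw w L N M t).re := by
    have := Pw_cont w L N M
    exact Complex.continuous_re.comp this
  have hbdd := (Nw_meas T (H / L)).2
  obtain ⟨B1, bN⟩ := hbdd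
  have iX : IntegrableOn (fun t => |Nw T (H / L) t - H / Real.pi + 2 * (Pw w L N M t).re| * V t) (Set.Ioc (T + 2 * L) (2 * T - 2 * L)) := by
    have i1 : IntervalIntegrable (fun t => (Nw T (H / L) t) * V t) volume (T + 2 * L) (2 * T - 2 * L) := ii_mul mN bN hVc _ _
    have i2 : IntervalIntegrable (fun t => (- (H / Real.pi) + 2 * (Pw w L N M t).re) * V t) volume (T + 2 * L) (2 * T - 2 * L) :=
      Continuous.intervalIntegrable (by fun_prop) _ _
    have i3 : IntervalIntegrable (fun t => |Nw T (H / L) t - H / Real.pi + 2 * (Pw w L N M t).re| * V t) volume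
        (T + 2 * L) (2 * T - 2 * L) := by
      refine (i1.add i2).abs.congr fun t _ => ?_
      rw [← add_mul, abs_mul, abs_of_nonneg (hV0 t)]
      congr 2
      ring
    exact (intervalIntegrable_iff_integrableOn_Ioc_of_le hxy).1 i3
  have hmono : ∀ (f g : ℝ → ℝ), Measurable f → Measurable g → (∀ t, 0 ≤ f t → 0 ≤ g t) →
      ∫ t in {t : ℝ | T + 2 * L < t ∧ t ≤ 2 * T - 2 * L ∧ 0 ≤ f t}, V t ≤
      ∫ t in {t : ℝ | T + 2 * L < t ∧ t ≤ 2 * T - 2 * L ∧ 0 ≤ g t}, V t := by
    intro f g hf hg hfg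
    have hcI : IntegrableOn V (Set.Ioc (T + 2 * L) (2 * T - 2 * L)) :=
      (hVc.integrableOn_Icc).mono_set Set.Ioc_subset_Icc_self
    have hset : ∀ f : ℝ → ℝ, {t : ℝ | T + 2 * L < t ∧ t ≤ 2 * T - 2 * L ∧ 0 ≤ f t} =
        Set.Ioc (T + 2 * L) (2 * T - 2 * L) ∩ {t : ℝ | 0 ≤ f t} := by
      intro f
      ext t
      simp only [Set.mem_ofPred_eq, Set.mem_inter_iff, Set.mem_Ioc, and_assoc]
    refine setIntegral_mono_set ?_ (Eventually.of_forall fun t => hV0 t) ?_
    · rw [hset]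
      exact hcI.mono_set Set.inter_subset_left
    · refine LE.le.eventuallyLE ?_
      intro t ht
      exact ⟨ht.1, ht.2.1, hfg t ht.2.2⟩
  constructor
  · -- many zeros
    have h := share_num hxy hVc hV0 (Y := fun t => -(2 * (Pw w L N M t).re)) (by fun_prop)
      (X := fun t => Nw T (H / L) t - H / Real.pi) (mN.sub_const _)
      (by
        refine iX.congr_fun (fun t _ => ?_) measurableSet_Ioc
        simp only [sub_neg_eq_add])
      hT0 hn2 hC₆ hsC hyx herr0 herr2
      (by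
        simp only [neg_sq]
        exact m2)
      (by
        have : ∀ t, (-(2 * (Pw w L N M t).re)) ^ 4 = (2 * (Pw w L N M t).re) ^ 4 := fun t => by ring
        simp only [this]
        exact m4)
      (by
        have : (∫ t in (T + 2 * L)..(2 * T - 2 * L), -(2 * (Pw w L N M t).re) * V t) =
            -∫ t in (T + 2 * L)..(2 * T - 2 * L), 2 * (Pw w L N M t).re * V t := by
          rw [← intervalIntegral.integral_neg]
          refine intervalIntegral.integral_congr fun t _ => ?_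
          simp only [neg_mul]
        rw [this, abs_neg]
        exact m1)
      (by
        simp only [sub_neg_eq_add]
        exact a4) hV1
    refine h.trans ?_
    have h2 := hmono (fun t => Nw T (H / L) t - H / Real.pi - Real.sqrt s / 16)
      (fun t => Nw T (H / L) t - (H / Real.pi + Real.sqrt (Real.log H) / 2500)) ((mN.sub_const _).sub_const _) (mN.sub_const _)
      (fun t ht => by linarith)
    simp only [sub_nonneg] at h2
    exact h2
  · -- few zeros
    have h := share_num hxy hVc hV0 (Y := fun t => 2 * (Pw w L N M t).re) (by fun_prop)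
      (X := fun t => H / Real.pi - Nw T (H / L) t) (mN.const_sub _)
      (by
        refine iX.congr_fun (fun t _ => ?_) measurableSet_Ioc
        simp only []
        congr 1
        rw [← abs_neg]
        congr 1
        ring)
      hT0 hn2 hC₆ hsC hyx herr0 herr2 m2 m4 m1
      (by
        refine le_trans (le_of_eq ?_) a4
        refine intervalIntegral.integral_congr fun t _ => ?_
        change |H / Real.pi - Nw T (H / L) t - 2 * (Pw w L N M t).re| * V t = |Nw T (H / L) t - H / Real.pi + 2 * (Pw w L N M t).re| * V t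
        congr 1
        rw [← abs_neg]
        congr 1
        ring) hV1
    refine h.trans ?_
    have h2 := hmono (fun t => H / Real.pi - Nw T (H / L) t - Real.sqrt s / 16)
      (fun t => (H / Real.pi - Real.sqrt (Real.log H) / 2500) - Nw T (H / L) t) ((mN.const_sub _).sub_const _) (mN.const_sub _)
      (fun t ht => by linarith)
    simp only [sub_nonneg] at h2
    exact h2

end

end Pool.Agent.U196.UV
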