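import Pool.Agent.U196.UV.Share

set_option autoImplicit false

/-!
# Project UV (helper196): the numerical end of the share estimate
-/

namespace Pool.Agent.U196.UV

open Filter Topology MeasureTheory

noncomputable section

/-- the share estimate with the parameters which occur -/
theorem share_num {x y : ℝ} (hxy : x ≤ y) {V Y X : ℝ → ℝ} (hV : Continuous V) (hV0 : ∀ t, 0 ≤ V t) (hY : Continuous Y)
    (hX : Measurable X) (hXi : IntegrableOn (fun t => |X t - Y t| * V t) (Set.Ioc x y))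
    {T n2 s err C₆ : ℝ} (hT : 0 < T) (hn2 : 0 ≤ n2) (hC₆ : 0 ≤ C₆) (hs : (20 * (C₆ + 1)) ^ 2 ≤ s)
    (hyx : |(y - x) - T| ≤ T / 1000) (herr0 : 0 ≤ err) (herr : err * (2 * s ^ 2 + 2 * s + 1) ≤ T / 1000)
    (h1 : |(∫ t in x..y, Y t ^ 2 * V t) - 2 * (y - x) * s * n2| ≤ err * (2 * s ^ 2 + 2 * s + 1) * n2)
    (h3 : (∫ t in x..y, Y t ^ 4 * V t) ≤ 32 * ((y - x) + err) * s ^ 2 * n2)
    (h4 : |∫ t in x..y, Y t * V t| ≤ err * (s + 1) * n2)
    (h5 : (∫ t in x..y, |X t - Y t| * V t) ≤ C₆ * (T * n2)) (h6 : (∫ t in x..y, V t) ≤ 101 / 100 * (T * n2)) :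
    T * n2 / 130 ≤ ∫ t in {t : ℝ | x < t ∧ t ≤ y ∧ Real.sqrt s / 16 ≤ X t}, V t := by
  rcases hn2.eq_or_lt with hz | hn2p
  · rw [← hz]
    simp only [mul_zero, zero_div]
    refine setIntegral_nonneg ?_ fun t _ => hV0 t
    have e : {t : ℝ | x < t ∧ t ≤ y ∧ Real.sqrt s / 16 ≤ X t} = Set.Ioc x y ∩ {t : ℝ | Real.sqrt s / 16 ≤ X t} := by
      ext t
      simp only [Set.mem_ofPred_eq, Set.mem_inter_iff, Set.mem_Ioc, and_assoc]
    rw [e]
    exact measurableSet_Ioc.inter (measurableSet_le measurable_const hX)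
  obtain ⟨r, hr⟩ : ∃ r, r = Real.sqrt s := ⟨_, rfl⟩
  have hs1 : 400 ≤ s := by nlinarith
  have hs0 : 0 < s := by linarith
  have hr0 : 0 < r := by rw [hr]; exact Real.sqrt_pos.2 hs0
  have hrs : r ^ 2 = s := by rw [hr]; exact Real.sq_sqrt hs0.le
  have hrC : 20 * (C₆ + 1) ≤ r := by
    rw [hr]
    exact Real.le_sqrt_of_sq_le hs
  have hr20 : 20 ≤ r := by linarith
  obtain ⟨W, hW⟩ : ∃ W, W = T * n2 := ⟨_, rfl⟩
  have hW0 : 0 < W := by rw [hW]; positivity
  have hyx1 := (abs_le.1 hyx).1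
  have hyx2 := (abs_le.1 hyx).2
  -- the errors
  have hsn : 0 ≤ s ^ 2 := by positivity
  have e1 : err * (2 * s ^ 2 + 2 * s + 1) * n2 ≤ W / 1000 := by
    rw [hW]
    have := mul_le_mul_of_nonneg_right herr hn2
    linarith
  have e2 : err * (s + 1) * n2 ≤ W / 1000 := by
    refine le_trans ?_ e1
    refine mul_le_mul_of_nonneg_right (mul_le_mul_of_nonneg_left ?_ herr0) hn2
    nlinarith
  have e3 : err * s ^ 2 * n2 ≤ W / 1000 := by
    refine le_trans ?_ e1
    refine mul_le_mul_of_nonneg_right (mul_le_mul_of_nonneg_left ?_ herr0) hn2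
    nlinarith
  have h1' := abs_le.1 h1
  have f1 : 2 * (999 / 1000) * s * W - W / 1000 ≤ ∫ t in x..y, Y t ^ 2 * V t := by
    have g1 : 999 / 1000 * T ≤ y - x := by linarith
    have g2 : 2 * (999 / 1000) * s * W ≤ 2 * (y - x) * s * n2 := by
      rw [hW]
      have := mul_le_mul_of_nonneg_right g1 (show 0 ≤ 2 * s * n2 by positivity)
      linarith
    linarith [h1'.1]
  have f2 : (∫ t in x..y, Y t ^ 2 * V t) ≤ 2.01 * s * W := by
    have g1 : y - x ≤ 1001 / 1000 * T := by linarith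
    have g2 : 2 * (y - x) * s * n2 ≤ 2 * (1001 / 1000) * s * W := by
      rw [hW]
      have := mul_le_mul_of_nonneg_right g1 (show 0 ≤ 2 * s * n2 by positivity)
      linarith
    have g3 : W / 1000 ≤ s * W / 1000 := by
      have : 1 * W ≤ s * W := mul_le_mul_of_nonneg_right (by linarith) hW0.le
      linarith
    have h7 := h1'.2
    have h8 : 0 ≤ s * W := by positivity
    linarith
  have f3 : (∫ t in x..y, Y t ^ 4 * V t) ≤ 32.1 * s ^ 2 * W := by
    have g1 : y - x ≤ 1001 / 1000 * T := by linarith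
    have g2 : 32 * (y - x) * s ^ 2 * n2 ≤ 32 * (1001 / 1000) * s ^ 2 * W := by
      rw [hW]
      have := mul_le_mul_of_nonneg_right g1 (show 0 ≤ 32 * s ^ 2 * n2 by positivity)
      linarith
    have g3 : W / 1000 ≤ s ^ 2 * W / 1000 := by
      have : 1 * W ≤ s ^ 2 * W := mul_le_mul_of_nonneg_right (by nlinarith) hW0.le
      linarith
    have h8 : 0 ≤ s ^ 2 * W := by positivity
    linarith
  have key := share hxy hV hV0 hY hX hXi (a₂ := 2 * (999 / 1000) * s * W - W / 1000) (A₂ := 2.01 * s * W) (A₄ := 32.1 * s ^ 2 * W)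
    (m := W / 1000) (e := C₆ * W) (v := 101 / 100 * W) (τ := 4 * r) (lam := r / 16) f1 f2 f3 (h4.trans e2)
    (by rw [hW]; exact h5) (by rw [hW]; exact h6) (by positivity) (by positivity) (by positivity) rfl
  obtain ⟨G, hG⟩ : ∃ G, G = 1 / 2 * (3 / (2 * (4 * r)) * (2 * (999 / 1000) * s * W - W / 1000) -
    1 / (2 * (4 * r) ^ 3) * (32.1 * s ^ 2 * W) - W / 1000) - C₆ * W - r / 16 * (101 / 100 * W) := ⟨_, rfl⟩
  rw [← hG] at key
  have hG1 : G = W * (1 / 2 * (3 / 8 * (2 * (999 / 1000) * r - 1 / (1000 * r)) - 32.1 / 128 * r - 1 / 1000) - C₆ -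
      101 / 1600 * r) := by
    rw [hG, ← hrs]
    field_simp
    ring
  have hri : 1 / (1000 * r) ≤ 1 / 1000 := by
    rw [div_le_div_iff₀ (by positivity) (by norm_num)]
    linarith
  have hG2 : W * (r / 8) ≤ G := by
    rw [hG1]
    refine mul_le_mul_of_nonneg_left ?_ hW0.le
    linarith
  have hG3 : 0 < G := lt_of_lt_of_le (by positivity) hG2
  have hk := key hG3
  have hG4 : (W * (r / 8)) ^ 2 ≤ G ^ 2 := pow_le_pow_left₀ (by positivity) hG2 2
  have hG5 : (W * (r / 8)) ^ 2 = W ^ 2 * s / 64 := by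
    rw [← hrs]
    ring
  rw [hG5] at hG4
  rw [← hr]
  obtain ⟨I, hI⟩ : ∃ I, I = ∫ t in {t : ℝ | x < t ∧ t ≤ y ∧ r / 16 ≤ X t}, V t := ⟨_, rfl⟩
  rw [← hI] at hk ⊢
  rw [← hW]
  have h9 : W ^ 2 * s / 64 ≤ 2.01 * s * W * I := hG4.trans hk
  have h10 : s * W * (W / 64) ≤ s * W * (2.01 * I) := by linarith
  have h11 : W / 64 ≤ 2.01 * I := le_of_mul_le_mul_left h10 (by positivity)
  linarith

end

end Pool.Agent.U196.UV
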