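import Pool.Agent.H382R2.Final0
import Pool.Agent.U196.UV.Gap

set_option autoImplicit false

/-!
# Project UV (helper196): from sums over ordinates to sums over the indices of the ordered sequence of the ordinates
-/

namespace Pool.Agent.U196.UV

open Filter Topology MeasureTheory Complex
open Pool.Agent.Q97.UM
open Pool.Agent.Q150.UM (ev_log)

noncomputable section

open Classical in
/-- the number of zeros with ordinate in `(0, g)` -/
def NZlt (g : ℝ) : ℕ := ∑ s ∈ (SG.ZS_finite g).toFinset.filter (fun s => s.im < g), SG.zmult s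

lemma mem_ZSf (g : ℝ) (s : ℂ) : s ∈ (SG.ZS_finite g).toFinset ↔ riemannZeta s = 0 ∧ 0 < s.re ∧ s.re < 1 ∧ 0 < s.im ∧ s.im ≤ g := by
  rw [Set.Finite.mem_toFinset]
  rfl

open Classical in
lemma NZ_split (g : ℝ) : SG.NZ g = NZlt g + ∑ s ∈ (SG.ZS_finite g).toFinset.filter (fun s => s.im = g), SG.zmult s := by
  rw [SG.NZ_eq]
  unfold NZlt
  rw [← Finset.sum_filter_add_sum_filter_not (SG.ZS_finite g).toFinset (fun s => s.im < g)]
  congr 1
  refine Finset.sum_congr ?_ fun _ _ => rfl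
  ext s
  simp only [Finset.mem_filter, mem_ZSf]
  constructor
  · rintro ⟨⟨a, b, c, d, e⟩, f⟩
    exact ⟨⟨a, b, c, d, e⟩, le_antisymm e (not_lt.1 f)⟩
  · rintro ⟨⟨a, b, c, d, e⟩, f⟩
    exact ⟨⟨a, b, c, d, e⟩, by rw [f]; exact lt_irrefl g⟩

lemma ord_lt {n : ℕ} (hn : 1 ≤ n) {g : ℝ} (hg : 0 < g) (h : n ≤ NZlt g) : SG.ord n < g := by
  classical
  set A := (SG.ZS_finite g).toFinset.filter (fun s => s.im < g) with hA
  obtain ⟨t, ht, htA⟩ : ∃ t : ℝ, t < g ∧ ∀ s ∈ A, s.im ≤ t := by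
    by_cases hne : A.Nonempty
    · obtain ⟨s0, hs0, hmax⟩ := A.exists_max_image (fun s => s.im) hne
      exact ⟨s0.im, (Finset.mem_filter.1 hs0).2, hmax⟩
    · refine ⟨0, hg, fun s hs => ?_⟩
      exact absurd ⟨s, hs⟩ hne
  have h1 : NZlt g ≤ SG.NZ t := by
    rw [SG.NZ_eq]
    unfold NZlt
    apply Finset.sum_le_sum_of_subset
    intro s hs
    have h2 := htA s (by rw [hA]; convert hs)
    rw [Finset.mem_filter, mem_ZSf] at hs
    rw [mem_ZSf]
    exact ⟨hs.1.1, hs.1.2.1, hs.1.2.2.1, hs.1.2.2.2.1, h2⟩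
  exact ((SG.ord_le_iff hn t).2 (h.trans h1)).trans_lt ht

/-- `ord n` is the ordinate of a zero -/
lemma ord_zero {n : ℕ} (hn : 1 ≤ n) : ∃ s : ℂ, riemannZeta s = 0 ∧ 0 < s.re ∧ s.re < 1 ∧ s.im = SG.ord n := by
  classical
  by_contra hcon
  push Not at hcon
  have hg0 : 0 < SG.ord n := SG.ord_pos hn
  have h1 : (SG.ZS_finite (SG.ord n)).toFinset.filter (fun s => s.im = SG.ord n) = ∅ := by
    rw [Finset.filter_eq_empty_iff]
    intro s hs h2
    rw [mem_ZSf] at hs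
    exact hcon s hs.1 hs.2.1 hs.2.2.1 h2
  have h2 := NZ_split (SG.ord n)
  rw [h1, Finset.sum_empty, add_zero] at h2
  have h3 : n ≤ SG.NZ (SG.ord n) := SG.le_NZ_ord hn
  rw [h2] at h3
  exact absurd (ord_lt hn hg0 h3) (lt_irrefl _)

lemma zm_eq (s : ℂ) : SG.zmult s = mz s := rfl

/-- the indices of the ordinates in `(T, 2T]` -/
def Ix (T : ℝ) : Finset ℕ := Finset.Ioc (SG.NZ T) (SG.NZ (2 * T))

lemma mem_Ix {T : ℝ} (n : ℕ) : n ∈ Ix T ↔ 1 ≤ n ∧ T < SG.ord n ∧ SG.ord n ≤ 2 * T := by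
  unfold Ix
  rw [Finset.mem_Ioc]
  constructor
  · rintro ⟨h1, h2⟩
    have hn : 1 ≤ n := by omega
    refine ⟨hn, ?_, (SG.ord_le_iff hn _).2 h2⟩
    by_contra hcon
    push Not at hcon
    have := (SG.ord_le_iff hn _).1 hcon
    omega
  · rintro ⟨hn, h1, h2⟩
    refine ⟨?_, (SG.ord_le_iff hn _).1 h2⟩
    by_contra hcon
    push Not at hcon
    have := (SG.ord_le_iff hn T).2 hcon
    linarith

open Classical in
/-- the sum over the indices is at most the sum over the zeros with multiplicity -/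
lemma idx_le {T : ℝ} (hT : 1 ≤ T) (F : ℝ → ℝ) (hF : ∀ g, 0 ≤ F g) :
    ∑ n ∈ Ix T, F (SG.ord n) ≤ ∑ s ∈ H370.Zf riemannZeta T (2 * T), (mz s : ℝ) * F s.im := by
  set Z := H370.Zf riemannZeta T (2 * T) with hZ
  have hmap : ∀ n ∈ Ix T, SG.ord n ∈ Z.image Complex.im := by
    intro n hn
    rw [mem_Ix] at hn
    obtain ⟨s, h0, h1, h2, h3⟩ := ord_zero hn.1
    rw [Finset.mem_image]
    refine ⟨s, ?_, h3⟩
    rw [hZ, mem_Zf hT]
    exact ⟨h0, h1, h2, by rw [h3]; exact hn.2.1, by rw [h3]; exact hn.2.2⟩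
  rw [← Finset.sum_fiberwise_of_maps_to hmap,
    ← Finset.sum_fiberwise_of_maps_to (s := Z) (t := Z.image Complex.im) (g := Complex.im) (fun s hs => Finset.mem_image_of_mem _ hs)]
  refine Finset.sum_le_sum fun g hg => ?_
  rw [Finset.mem_image] at hg
  obtain ⟨s₁, hs₁, hg⟩ := hg
  rw [hZ, mem_Zf hT] at hs₁
  have hg0 : 0 < g := by rw [← hg]; linarith [hs₁.2.2.2.1]
  have h1 : ∑ n ∈ (Ix T).filter (fun n => SG.ord n = g), F (SG.ord n) = (((Ix T).filter (fun n => SG.ord n = g)).card : ℝ) * F g := by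
    rw [Finset.sum_congr rfl (fun n hn => by rw [(Finset.mem_filter.1 hn).2]), Finset.sum_const, nsmul_eq_mul]
  have h2 : ∑ s ∈ Z.filter (fun s => s.im = g), (mz s : ℝ) * F s.im = ((∑ s ∈ Z.filter (fun s => s.im = g), mz s : ℕ) : ℝ) * F g := by
    push_cast
    rw [Finset.sum_mul]
    refine Finset.sum_congr rfl fun s hs => ?_
    rw [(Finset.mem_filter.1 hs).2]
  rw [h1, h2]
  refine mul_le_mul_of_nonneg_right ?_ (hF g)
  have h3 : (Ix T).filter (fun n => SG.ord n = g) ⊆ Finset.Ioc (NZlt g) (SG.NZ g) := by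
    intro n hn
    rw [Finset.mem_filter, mem_Ix] at hn
    rw [Finset.mem_Ioc]
    constructor
    · by_contra hle
      push Not at hle
      have := ord_lt hn.1.1 hg0 hle
      rw [hn.2] at this
      exact lt_irrefl g this
    · rw [← hn.2]
      exact SG.le_NZ_ord hn.1.1
  have h4 := Finset.card_le_card h3
  rw [Nat.card_Ioc, NZ_split g, Nat.add_sub_cancel_left] at h4
  have h5 : ∑ s ∈ (SG.ZS_finite g).toFinset.filter (fun s => s.im = g), SG.zmult s ≤ ∑ s ∈ Z.filter (fun s => s.im = g), mz s := by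
    refine Finset.sum_le_sum_of_subset ?_
    intro s hs
    rw [Finset.mem_filter, mem_ZSf] at hs
    rw [Finset.mem_filter, hZ, mem_Zf hT]
    refine ⟨⟨hs.1.1, hs.1.2.1, hs.1.2.2.1, ?_, ?_⟩, hs.2⟩
    · rw [hs.2, ← hg]
      exact hs₁.2.2.2.1
    · rw [hs.2, ← hg]
      exact hs₁.2.2.2.2
  exact_mod_cast h4.trans h5

/-- transfer of a sum over ordinates to a sum over indices -/
lemma transfer {T : ℝ} (A : Finset ℝ) (P : ℕ → Prop) [DecidablePred P] (F : ℝ → ℝ) (hF : ∀ g, 0 ≤ F g)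
    (h : ∀ g ∈ A, ∃ n ∈ Ix T, SG.ord n = g ∧ P n) :
    ∑ g ∈ A, F g ≤ ∑ n ∈ (Ix T).filter P, F (SG.ord n) := by
  classical
  choose! f hf1 hf2 hf3 using h
  have hinj : Set.InjOn f (A : Set ℝ) := by
    intro a ha b hb hab
    rw [← hf2 a (Finset.mem_coe.1 ha), ← hf2 b (Finset.mem_coe.1 hb), hab]
  have e1 : ∑ g ∈ A, F g = ∑ n ∈ A.image f, F (SG.ord n) := by
    rw [Finset.sum_image hinj]
    refine Finset.sum_congr rfl fun g hg => ?_
    rw [hf2 g hg]
  rw [e1]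
  refine Finset.sum_le_sum_of_subset_of_nonneg ?_ fun _ _ _ => hF _
  intro n hn
  rw [Finset.mem_image] at hn
  obtain ⟨g, hg, rfl⟩ := hn
  exact Finset.mem_filter.2 ⟨hf1 g hg, hf3 g hg⟩

open Classical in
lemma ord_small {T l : ℝ} (hT : 1 ≤ T) (hl : 0 ≤ l) {g : ℝ} (hg : g ∈ ((H370.Zf riemannZeta T (2 * T)).image Complex.im).filter (SmallAt l T)) :
    ∃ n ∈ Ix T, SG.ord n = g ∧ SG.ord (n + 1) - SG.ord n ≤ l := by
  rw [Finset.mem_filter, Finset.mem_image] at hg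
  obtain ⟨⟨s₁, hs₁, hg1⟩, hsm⟩ := hg
  rw [mem_Zf hT] at hs₁
  have hg0 : 0 < g := by rw [← hg1]; linarith [hs₁.2.2.2.1]
  have hone : NZlt g + 1 ≤ SG.NZ g := by
    rw [NZ_split g]
    have h1 : SG.zmult s₁ ≤ ∑ s ∈ (SG.ZS_finite g).toFinset.filter (fun s => s.im = g), SG.zmult s := by
      refine Finset.single_le_sum (fun _ _ => Nat.zero_le _) ?_
      rw [Finset.mem_filter, mem_ZSf]
      exact ⟨⟨hs₁.1, hs₁.2.1, hs₁.2.2.1, by linarith [hs₁.2.2.2.1], hg1.le⟩, hg1⟩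
    have h2 : 1 ≤ SG.zmult s₁ := mz_pos hs₁.1 hs₁.2.2.1
    omega
  have hord : SG.ord (NZlt g + 1) = g := by
    refine le_antisymm ((SG.ord_le_iff (by omega) g).2 hone) ?_
    by_contra hcon
    push Not at hcon
    have h1 := SG.le_NZ_ord (show 1 ≤ NZlt g + 1 by omega)
    have h2 : SG.NZ (SG.ord (NZlt g + 1)) ≤ NZlt g := by
      rw [SG.NZ_eq]
      unfold NZlt
      refine Finset.sum_le_sum_of_subset ?_
      intro s hs
      rw [mem_ZSf] at hs
      rw [Finset.mem_filter, mem_ZSf]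
      exact ⟨⟨hs.1, hs.2.1, hs.2.2.1, hs.2.2.2.1, hs.2.2.2.2.trans hcon.le⟩, lt_of_le_of_lt hs.2.2.2.2 hcon⟩
    omega
  refine ⟨NZlt g + 1, ?_, hord, ?_⟩
  · rw [mem_Ix, hord, ← hg1]
    exact ⟨by omega, hs₁.2.2.2.1, hs₁.2.2.2.2⟩
  · rw [hord]
    have h2 : NZlt g + 2 ≤ SG.NZ (g + l) := by
      rw [SG.NZ_eq]
      unfold NZlt
      have hsub : (SG.ZS_finite g).toFinset.filter (fun s => s.im < g) ∪
          (H370.Zf riemannZeta T (2 * T)).filter (fun s => g ≤ s.im ∧ s.im ≤ g + l) ⊆ (SG.ZS_finite (g + l)).toFinset := by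
        intro s hs
        rw [Finset.mem_union, Finset.mem_filter, Finset.mem_filter, mem_ZSf, mem_Zf hT] at hs
        rw [mem_ZSf]
        rcases hs with hs | hs
        · exact ⟨hs.1.1, hs.1.2.1, hs.1.2.2.1, hs.1.2.2.2.1, by linarith [hs.2]⟩
        · exact ⟨hs.1.1, hs.1.2.1, hs.1.2.2.1, by linarith [hs.2.1], hs.2.2⟩
      have hdis : Disjoint ((SG.ZS_finite g).toFinset.filter (fun s => s.im < g))
          ((H370.Zf riemannZeta T (2 * T)).filter (fun s => g ≤ s.im ∧ s.im ≤ g + l)) := by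
        rw [Finset.disjoint_left]
        intro s hs hs'
        rw [Finset.mem_filter] at hs hs'
        linarith [hs.2, hs'.2.1]
      have h3 := Finset.sum_le_sum_of_subset (f := SG.zmult) hsub
      rw [Finset.sum_union hdis] at h3
      have h4 : 2 ≤ ∑ s ∈ (H370.Zf riemannZeta T (2 * T)).filter (fun s => g ≤ s.im ∧ s.im ≤ g + l), SG.zmult s := hsm
      omega
    have h3 := (SG.ord_le_iff (show 1 ≤ NZlt g + 1 + 1 by omega) (g + l)).2 (by omega)
    linarith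

open Classical in
lemma ord_large {T l : ℝ} (hT : 1 ≤ T) {g : ℝ} (hg : g ∈ ((H370.Zf riemannZeta T (2 * T)).image Complex.im).filter (LargeAt l)) :
    ∃ n ∈ Ix T, SG.ord n = g ∧ l ≤ SG.ord (n + 1) - SG.ord n := by
  rw [Finset.mem_filter, Finset.mem_image] at hg
  obtain ⟨⟨s₁, hs₁, hg1⟩, hsm⟩ := hg
  rw [mem_Zf hT] at hs₁
  have hg0 : 0 < g := by rw [← hg1]; linarith [hs₁.2.2.2.1]
  have hone : NZlt g + 1 ≤ SG.NZ g := by
    rw [NZ_split g]
    have h1 : SG.zmult s₁ ≤ ∑ s ∈ (SG.ZS_finite g).toFinset.filter (fun s => s.im = g), SG.zmult s := by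
      refine Finset.single_le_sum (fun _ _ => Nat.zero_le _) ?_
      rw [Finset.mem_filter, mem_ZSf]
      exact ⟨⟨hs₁.1, hs₁.2.1, hs₁.2.2.1, by linarith [hs₁.2.2.2.1], hg1.le⟩, hg1⟩
    have h2 : 1 ≤ SG.zmult s₁ := mz_pos hs₁.1 hs₁.2.2.1
    omega
  have hn1 : 1 ≤ SG.NZ g := by omega
  have hord : SG.ord (SG.NZ g) = g := by
    refine le_antisymm ((SG.ord_le_iff hn1 g).2 le_rfl) ?_
    by_contra hcon
    push Not at hcon
    have h1 := SG.le_NZ_ord hn1
    have h2 : SG.NZ (SG.ord (SG.NZ g)) ≤ NZlt g := by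
      rw [SG.NZ_eq]
      unfold NZlt
      refine Finset.sum_le_sum_of_subset ?_
      intro s hs
      rw [mem_ZSf] at hs
      rw [Finset.mem_filter, mem_ZSf]
      exact ⟨⟨hs.1, hs.2.1, hs.2.2.1, hs.2.2.2.1, hs.2.2.2.2.trans hcon.le⟩, lt_of_le_of_lt hs.2.2.2.2 hcon⟩
    omega
  refine ⟨SG.NZ g, ?_, hord, ?_⟩
  · rw [mem_Ix]
    refine ⟨hn1, ?_, ?_⟩
    · rw [hord, ← hg1]
      exact hs₁.2.2.2.1
    · rw [hord, ← hg1]
      exact hs₁.2.2.2.2
  · rw [hord]
    obtain ⟨s, h0, h1, h2, h3⟩ := ord_zero (show 1 ≤ SG.NZ g + 1 by omega)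
    have h4 : g < s.im := by
      rw [h3]
      by_contra hcon
      push Not at hcon
      have := (SG.ord_le_iff (show 1 ≤ SG.NZ g + 1 by omega) g).1 hcon
      omega
    have := hsm s h0 h1 h2 h4
    rw [h3] at this
    linarith

/-- the normalised gap -/
def dl (n : ℕ) : ℝ := (SG.ord (n + 1) * Real.log (SG.ord (n + 1)) - SG.ord n * Real.log (SG.ord n)) / (2 * Real.pi)

lemma xlog {x y : ℝ} (hx : 1 ≤ x) (hxy : x ≤ y) : (y - x) * Real.log x ≤ y * Real.log y - x * Real.log x ∧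
    y * Real.log y - x * Real.log x ≤ (y - x) * (Real.log y + 1) := by
  have hx0 : 0 < x := by linarith
  have hy0 : 0 < y := by linarith
  have h1 : Real.log x ≤ Real.log y := Real.log_le_log hx0 hxy
  constructor
  · have := mul_le_mul_of_nonneg_left h1 hy0.le
    linarith
  · have h2 := Real.log_le_sub_one_of_pos (show 0 < y / x by positivity)
    rw [Real.log_div hy0.ne' hx0.ne'] at h2
    have h3 := mul_le_mul_of_nonneg_left h2 hx0.le
    have h4 : x * (y / x - 1) = y - x := by field_simp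
    rw [h4] at h3
    linarith

open Classical in
/-- **large and small gaps in a positive proportion relative to every Dirichlet polynomial, for the ordered sequence** -/
theorem gaps_idx : ∃ c θ : ℝ, 0 < c ∧ 0 < θ ∧ ∀ᶠ T : ℝ in atTop, ∀ N : ℕ, (N : ℝ) ≤ T ^ θ → ∀ b : ℕ → ℂ,
    c * (∑ n ∈ Ix T, ‖dp N b (SG.ord n)‖ ^ 2) ≤ ∑ n ∈ (Ix T).filter (fun n => dl n ≤ 1 - c), ‖dp N b (SG.ord n)‖ ^ 2 ∧
    c * (∑ n ∈ Ix T, ‖dp N b (SG.ord n)‖ ^ 2) ≤ ∑ n ∈ (Ix T).filter (fun n => 1 + c ≤ dl n), ‖dp N b (SG.ord n)‖ ^ 2 := by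
  obtain ⟨c, θ, hc0, hc1, hθ0, -, h⟩ := gaps
  have hpi := Real.pi_pos
  refine ⟨c / 2, θ, by positivity, hθ0, ?_⟩
  filter_upwards [h, eventually_ge_atTop (16 : ℝ), ev_log (2 * Real.pi), ev_log (8 / c)] with T h hT16 hLpi hL8 N hN b
  have hT1 : 1 ≤ T := by linarith
  obtain ⟨L, hLT⟩ : ∃ L : ℝ, L = Real.log T := ⟨_, rfl⟩
  obtain ⟨h1, h2⟩ := h N hN b
  rw [← hLT] at h1 h2 hLpi hL8
  have hL0 : 0 < L := by linarith
  have hl2 : 2 * Real.pi / L ≤ 1 := by
    rw [div_le_one hL0]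
    exact hLpi
  have hlow := idx_le hT1 (fun g => ‖dp N b g‖ ^ 2) (fun g => by positivity)
  have hnn : 0 ≤ ∑ n ∈ Ix T, ‖dp N b (SG.ord n)‖ ^ 2 := Finset.sum_nonneg fun _ _ => by positivity
  have hle : c / 2 * (∑ n ∈ Ix T, ‖dp N b (SG.ord n)‖ ^ 2) ≤
      c * (∑ s ∈ H370.Zf riemannZeta T (2 * T), (mz s : ℝ) * ‖dp N b s.im‖ ^ 2) := by
    have := mul_le_mul_of_nonneg_left hlow hc0.le
    have h3 : 0 ≤ c * ∑ n ∈ Ix T, ‖dp N b (SG.ord n)‖ ^ 2 := by positivity
    linarith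
  constructor
  · refine hle.trans (h1.trans ?_)
    refine transfer _ _ (fun g => ‖dp N b g‖ ^ 2) (fun g => by positivity) fun g hg => ?_
    obtain ⟨n, hn, hng, hsm⟩ := ord_small hT1 (mul_nonneg (by linarith) (by positivity)) hg
    refine ⟨n, hn, hng, ?_⟩
    rw [mem_Ix] at hn
    have hord1 : SG.ord n ≤ SG.ord (n + 1) := SG.ord_mono hn.1 (by omega)
    have hx := (xlog (x := SG.ord n) (y := SG.ord (n + 1)) (by linarith [hn.2.1]) hord1).2
    have hord2 : SG.ord (n + 1) ≤ 4 * T := by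
      have h5 : (1 - c) * (2 * Real.pi / L) ≤ 1 := by
        have h6 : 0 ≤ 1 - c := by linarith
        calc (1 - c) * (2 * Real.pi / L) ≤ 1 * 1 := mul_le_mul (by linarith) hl2 (by positivity) (by norm_num)
          _ = 1 := by norm_num
      linarith [hn.2.2]
    have hlog : Real.log (SG.ord (n + 1)) + 1 ≤ L + 3 := by
      have h5 : Real.log (SG.ord (n + 1)) ≤ Real.log (4 * T) := Real.log_le_log (by linarith [hn.2.1]) hord2
      rw [Real.log_mul (by norm_num) (by linarith), ← hLT] at h5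
      have h6 : Real.log 4 ≤ 2 := by
        have : Real.log 4 = 2 * Real.log 2 := by
          rw [show (4 : ℝ) = 2 ^ 2 by norm_num, Real.log_pow]
          norm_num
        rw [this]
        have := Real.log_two_lt_d9
        linarith
      linarith
    unfold dl
    rw [div_le_iff₀ (by positivity)]
    calc SG.ord (n + 1) * Real.log (SG.ord (n + 1)) - SG.ord n * Real.log (SG.ord n) ≤
        (SG.ord (n + 1) - SG.ord n) * (Real.log (SG.ord (n + 1)) + 1) := hx
      _ ≤ ((1 - c) * (2 * Real.pi / L)) * (L + 3) := by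
          refine mul_le_mul hsm hlog ?_ (mul_nonneg (by linarith) (by positivity))
          have : 0 ≤ Real.log (SG.ord (n + 1)) := Real.log_nonneg (by linarith [hn.2.1])
          linarith
      _ = (1 - c) * (1 + 3 / L) * (2 * Real.pi) := by field_simp
      _ ≤ (1 - c / 2) * (2 * Real.pi) := by
          refine mul_le_mul_of_nonneg_right ?_ (by positivity)
          have h7 : 3 / L ≤ 3 * c / 8 := by
            rw [div_le_iff₀ hL0]
            rw [div_le_iff₀ hc0] at hL8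
            linarith
          have h8 : 0 ≤ 3 / L := by positivity
          nlinarith
  · refine hle.trans (h2.trans ?_)
    refine transfer _ _ (fun g => ‖dp N b g‖ ^ 2) (fun g => by positivity) fun g hg => ?_
    obtain ⟨n, hn, hng, hsm⟩ := ord_large hT1 hg
    refine ⟨n, hn, hng, ?_⟩
    rw [mem_Ix] at hn
    have hord1 : SG.ord n ≤ SG.ord (n + 1) := SG.ord_mono hn.1 (by omega)
    have hx := (xlog (x := SG.ord n) (y := SG.ord (n + 1)) (by linarith [hn.2.1]) hord1).1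
    have hlog : L ≤ Real.log (SG.ord n) := by
      rw [hLT]
      exact Real.log_le_log (by linarith) hn.2.1.le
    unfold dl
    rw [le_div_iff₀ (by positivity)]
    calc (1 + c / 2) * (2 * Real.pi) ≤ (1 + c) * (2 * Real.pi) := by
          refine mul_le_mul_of_nonneg_right ?_ (by positivity)
          linarith
      _ = ((1 + c) * (2 * Real.pi / L)) * L := by field_simp
      _ ≤ (SG.ord (n + 1) - SG.ord n) * Real.log (SG.ord n) := by
          refine mul_le_mul hsm hlog hL0.le ?_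
          linarith
      _ ≤ _ := hx

end

end Pool.Agent.U196.UV
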