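import Pool.Agent.Q150.UM.PU
import Pool.Agent.Q247.UM.CONV

set_option autoImplicit false

/-!
# Project UV (helper196): moments of prime polynomials over large primes, relative to every Dirichlet polynomial
-/

namespace Pool.Agent.U196.UV

open Filter Topology MeasureTheory Complex
open scoped ComplexConjugate
open Pool.Agent.Q97.UM
open Pool.Agent.Q150.UM (N2_nonneg dp_cont)

noncomputable section

/-- restriction of the coefficients to a set -/
def res (A : ℕ → Prop) [DecidablePred A] (α : ℕ → ℂ) (n : ℕ) : ℂ := if A n then α n else 0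

variable {N M : ℕ} {A : ℕ → Prop} [DecidablePred A] {α b : ℕ → ℂ}

/-- convolution with a sequence on primes when few divisors occur -/
lemma few_conv {X : ℕ} {c : ℕ → ℂ} (hAM : ∀ n, A n → n ≤ M) (hc : ∀ n, X < n → c n = 0) (r : ℕ)
    (hr : ∀ k : ℕ, 1 ≤ k → (k.divisorsAntidiagonal.filter (fun p => A p.1 ∧ c p.2 ≠ 0)).card ≤ r) :
    N2 (X * M) (cv (res A α) c) ≤ r * (∑ p ∈ (Finset.Icc 1 M).filter A, ‖α p‖ ^ 2 / p) * N2 X c := by
  classical
  have h0 := Pool.Agent.Q247.UM.sum_conv X M (fun n => ‖res A α n‖ ^ 2 / n) (fun m => ‖c m‖ ^ 2 / m) (by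
      intro n hn
      have : ¬ A n := fun h => by
        have := hAM n h
        omega
      simp only [res, if_neg this, norm_zero]
      simp) (by
      intro n hn
      simp only [hc n hn, norm_zero]
      simp)
  have h1 : ∑ p ∈ (Finset.Icc 1 M).filter A, ‖α p‖ ^ 2 / (p : ℝ) = ∑ p ∈ Finset.Icc 1 M, ‖res A α p‖ ^ 2 / (p : ℝ) := by
    rw [Finset.sum_filter]
    refine Finset.sum_congr rfl fun p _ => ?_
    unfold res
    by_cases h : A p
    · rw [if_pos h, if_pos h]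
    · rw [if_neg h, if_neg h, norm_zero]
      simp
  have h2 : (r : ℝ) * (∑ p ∈ Finset.Icc 1 M, ‖res A α p‖ ^ 2 / (p : ℝ)) * N2 X c =
      r * ∑ k ∈ Finset.Icc 1 (X * M), ∑ p ∈ k.divisorsAntidiagonal, ‖res A α p.1‖ ^ 2 / (p.1 : ℝ) * (‖c p.2‖ ^ 2 / (p.2 : ℝ)) := by
    rw [h0, mul_assoc]
    rfl
  rw [h1, h2]
  unfold N2
  rw [Finset.mul_sum]
  refine Finset.sum_le_sum fun k hk => ?_
  rw [Finset.mem_Icc] at hk
  have hk0 : (0 : ℝ) < k := by exact_mod_cast hk.1
  have h3 : ‖cv (res A α) c k‖ ^ 2 ≤ r * ∑ p ∈ k.divisorsAntidiagonal, ‖res A α p.1‖ ^ 2 * ‖c p.2‖ ^ 2 := by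
    have e1 : cv (res A α) c k = ∑ p ∈ k.divisorsAntidiagonal.filter (fun p => A p.1 ∧ c p.2 ≠ 0), res A α p.1 * c p.2 := by
      unfold cv
      symm
      apply Finset.sum_subset (Finset.filter_subset _ _)
      intro p hp hp2
      rw [Finset.mem_filter, not_and] at hp2
      have h4 := hp2 hp
      by_cases h5 : A p.1
      · have h6 : c p.2 = 0 := by
          by_contra h7
          exact h4 ⟨h5, h7⟩
        rw [h6, mul_zero]
      · unfold res
        rw [if_neg h5, zero_mul]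
    rw [e1]
    have h4 : ‖∑ p ∈ k.divisorsAntidiagonal.filter (fun p => A p.1 ∧ c p.2 ≠ 0), res A α p.1 * c p.2‖ ≤
        ∑ p ∈ k.divisorsAntidiagonal.filter (fun p => A p.1 ∧ c p.2 ≠ 0), ‖res A α p.1‖ * ‖c p.2‖ := by
      refine (norm_sum_le _ _).trans (le_of_eq ?_)
      exact Finset.sum_congr rfl fun p _ => norm_mul _ _
    have h5 : (∑ p ∈ k.divisorsAntidiagonal.filter (fun p => A p.1 ∧ c p.2 ≠ 0), ‖res A α p.1‖ * ‖c p.2‖) ^ 2 ≤
        ((k.divisorsAntidiagonal.filter (fun p => A p.1 ∧ c p.2 ≠ 0)).card : ℝ) *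
          ∑ p ∈ k.divisorsAntidiagonal.filter (fun p => A p.1 ∧ c p.2 ≠ 0), (‖res A α p.1‖ * ‖c p.2‖) ^ 2 :=
      sq_sum_le_card_mul_sum_sq
    have h6 : ∑ p ∈ k.divisorsAntidiagonal.filter (fun p => A p.1 ∧ c p.2 ≠ 0), (‖res A α p.1‖ * ‖c p.2‖) ^ 2 ≤
        ∑ p ∈ k.divisorsAntidiagonal, ‖res A α p.1‖ ^ 2 * ‖c p.2‖ ^ 2 := by
      refine (Finset.sum_le_sum_of_subset_of_nonneg (Finset.filter_subset _ _) fun p _ _ => by positivity).trans (le_of_eq ?_)
      exact Finset.sum_congr rfl fun p _ => by ring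
    calc ‖∑ p ∈ k.divisorsAntidiagonal.filter (fun p => A p.1 ∧ c p.2 ≠ 0), res A α p.1 * c p.2‖ ^ 2
        ≤ (∑ p ∈ k.divisorsAntidiagonal.filter (fun p => A p.1 ∧ c p.2 ≠ 0), ‖res A α p.1‖ * ‖c p.2‖) ^ 2 :=
          pow_le_pow_left₀ (norm_nonneg _) h4 2
      _ ≤ _ := h5
      _ ≤ (r : ℝ) * ∑ p ∈ k.divisorsAntidiagonal, ‖res A α p.1‖ ^ 2 * ‖c p.2‖ ^ 2 := by
          refine mul_le_mul (by exact_mod_cast hr k hk.1) h6 (Finset.sum_nonneg fun p _ => by positivity) (by positivity)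
  calc ‖cv (res A α) c k‖ ^ 2 / k ≤ (r * ∑ p ∈ k.divisorsAntidiagonal, ‖res A α p.1‖ ^ 2 * ‖c p.2‖ ^ 2) / k :=
        div_le_div_of_nonneg_right h3 hk0.le
    _ = r * ∑ p ∈ k.divisorsAntidiagonal, ‖res A α p.1‖ ^ 2 / (p.1 : ℝ) * (‖c p.2‖ ^ 2 / (p.2 : ℝ)) := by
        rw [mul_div_assoc, Finset.sum_div]
        congr 1
        refine Finset.sum_congr rfl fun p hp => ?_
        rw [Nat.mem_divisorsAntidiagonal] at hp
        rw [← hp.1]
        push_cast
        rw [div_mul_div_comm]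

/-- at most two primes of `A` occur in the second convolution -/
lemma card_two (hA : ∀ n, A n → n.Prime ∧ N < n) (hb : ∀ n, N < n → b n = 0) (k : ℕ) (_hk : 1 ≤ k) :
    (k.divisorsAntidiagonal.filter (fun p => A p.1 ∧ cv (res A α) b p.2 ≠ 0)).card ≤ 2 := by
  classical
  rcases Finset.eq_empty_or_nonempty (k.divisorsAntidiagonal.filter (fun p => A p.1 ∧ cv (res A α) b p.2 ≠ 0)) with h | ⟨x, hx⟩
  · rw [h]
    simp
  rw [Finset.mem_filter, Nat.mem_divisorsAntidiagonal] at hx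
  obtain ⟨⟨hx1, hx2⟩, hx3, hx4⟩ := hx
  obtain ⟨y, hy, hy2⟩ : ∃ y ∈ x.2.divisorsAntidiagonal, res A α y.1 * b y.2 ≠ 0 := by
    by_contra hcon
    push Not at hcon
    exact hx4 (Finset.sum_eq_zero hcon)
  rw [Nat.mem_divisorsAntidiagonal] at hy
  have hy3 : A y.1 := by
    by_contra h
    apply hy2
    unfold res
    rw [if_neg h, zero_mul]
  have hy4 : y.2 ≤ N := by
    by_contra h
    apply hy2
    rw [hb _ (by omega), mul_zero]
  have hy5 : y.2 ≠ 0 := by
    intro h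
    rw [h, mul_zero] at hy
    omega
  have hsub : k.divisorsAntidiagonal.filter (fun p => A p.1 ∧ cv (res A α) b p.2 ≠ 0) ⊆
      ({x.1, y.1} : Finset ℕ).image (fun q => (q, k / q)) := by
    intro z hz
    rw [Finset.mem_filter, Nat.mem_divisorsAntidiagonal] at hz
    obtain ⟨⟨hz1, hz2⟩, hz3, -⟩ := hz
    rw [Finset.mem_image]
    refine ⟨z.1, ?_, ?_⟩
    · rw [Finset.mem_insert, Finset.mem_singleton]
      have hd : z.1 ∣ x.1 * (y.1 * y.2) := by
        rw [hy.1, hx1, ← hz1]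
        exact Dvd.intro _ rfl
      have hp := (hA _ hz3).1
      rcases hp.dvd_mul.1 hd with h | h
      · exact Or.inl ((Nat.prime_dvd_prime_iff_eq hp (hA _ hx3).1).1 h)
      · rcases hp.dvd_mul.1 h with h' | h'
        · exact Or.inr ((Nat.prime_dvd_prime_iff_eq hp (hA _ hy3).1).1 h')
        · exfalso
          have h5 := Nat.le_of_dvd (by omega) h'
          have h6 := (hA _ hz3).2
          omega
    · refine Prod.ext rfl ?_
      simp only []
      rw [← hz1]
      exact Nat.mul_div_cancel_left _ (hA _ hz3).1.pos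
  exact (Finset.card_le_card hsub).trans (Finset.card_image_le.trans (Finset.card_le_two))

/-- the second moment -/
lemma N2_two (hA : ∀ n, A n → n.Prime ∧ N < n) (hAM : ∀ n, A n → n ≤ M) (hb : ∀ n, N < n → b n = 0) :
    N2 (N * M) (cv (res A α) b) = (∑ p ∈ (Finset.Icc 1 M).filter A, ‖α p‖ ^ 2 / p) * N2 N b :=
  Pool.Agent.Q247.UM.big N M b α A hA hAM hb

/-- convolutions are supported on short intervals -/
lemma cv_supp {X : ℕ} {c : ℕ → ℂ} (hAM : ∀ n, A n → n ≤ M) (hc : ∀ n, X < n → c n = 0) (n : ℕ) (hn : X * M < n) :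
    cv (res A α) c n = 0 := by
  unfold cv
  refine Finset.sum_eq_zero fun p hp => ?_
  rw [Nat.mem_divisorsAntidiagonal] at hp
  by_cases h : A p.1
  · have h1 := hAM _ h
    have h2 : X < p.2 := by
      by_contra h3
      have h4 : p.1 * p.2 ≤ M * X := Nat.mul_le_mul h1 (by omega)
      rw [hp.1, mul_comm] at h4
      omega
    rw [hc _ h2, mul_zero]
  · unfold res
    rw [if_neg h, zero_mul]

/-- the fourth moment -/
lemma N2_four (hA : ∀ n, A n → n.Prime ∧ N < n) (hAM : ∀ n, A n → n ≤ M) (hb : ∀ n, N < n → b n = 0) :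
    N2 (N * M * M) (cv (res A α) (cv (res A α) b)) ≤ 2 * (∑ p ∈ (Finset.Icc 1 M).filter A, ‖α p‖ ^ 2 / p) ^ 2 * N2 N b := by
  have h1 := few_conv (X := N * M) (c := cv (res A α) b) (α := α) hAM (cv_supp hAM hb) 2 (card_two hA hb)
  rw [N2_two hA hAM hb] at h1
  refine h1.trans (le_of_eq ?_)
  push_cast
  ring

/-- the convolution lives on numbers `> N` -/
lemma cv_big {c : ℕ → ℂ} (hA : ∀ n, A n → n.Prime ∧ N < n) (n : ℕ) (hn : n ≤ N) : cv (res A α) c n = 0 := by
  unfold cv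
  refine Finset.sum_eq_zero fun p hp => ?_
  rw [Nat.mem_divisorsAntidiagonal] at hp
  by_cases h : A p.1
  · exfalso
    have h1 := (hA _ h).2
    have h2 := Nat.le_of_dvd (by omega) (Dvd.intro _ hp.1)
    omega
  · unfold res
    rw [if_neg h, zero_mul]

/-! ### mean values -/

/-- the mean value theorem with constant `C₀` -/
def MVC (C₀ : ℝ) : Prop := ∀ (a b : ℝ), a ≤ b → ∀ (M : ℕ) (c : ℕ → ℂ), 1 ≤ M →
  |(∫ t in a..b, ‖dp M c t‖ ^ 2) - (b - a) * N2 M c| ≤ C₀ * M * (1 + Real.log M) * N2 M c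

lemma dp_mono {X Y : ℕ} (h : X ≤ Y) {c : ℕ → ℂ} (hc : ∀ n, X < n → c n = 0) (t : ℝ) : dp X c t = dp Y c t ∧ N2 X c = N2 Y c := by
  have hsub : Finset.Icc 1 X ⊆ Finset.Icc 1 Y := Finset.Icc_subset_Icc le_rfl h
  constructor
  · unfold dp
    apply Finset.sum_subset hsub
    intro n hn hn2
    rw [Finset.mem_Icc] at hn hn2
    rw [hc n (by omega), zero_mul]
  · unfold N2
    apply Finset.sum_subset hsub
    intro n hn hn2
    rw [Finset.mem_Icc] at hn hn2
    rw [hc n (by omega), norm_zero]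
    simp

/-- polynomials with disjoint supports are almost orthogonal -/
lemma ortho {C₀ : ℝ} (hMV : MVC C₀) {X : ℕ} (hX : 1 ≤ X) {c b : ℕ → ℂ} (h : ∀ n, c n = 0 ∨ b n = 0) {x y : ℝ} (hxy : x ≤ y) :
    |∫ t in x..y, (dp X c t * conj (dp X b t)).re| ≤ C₀ * X * (1 + Real.log X) / 2 * (N2 X c + N2 X b) := by
  have e1 : ∀ t, dp X (fun n => c n + b n) t = dp X c t + dp X b t := by
    intro t
    unfold dp
    rw [← Finset.sum_add_distrib]
    exact Finset.sum_congr rfl fun n _ => by ring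
  have e2 : ∀ t, dp X (fun n => c n - b n) t = dp X c t - dp X b t := by
    intro t
    unfold dp
    rw [← Finset.sum_sub_distrib]
    exact Finset.sum_congr rfl fun n _ => by ring
  have n1 : N2 X (fun n => c n + b n) = N2 X c + N2 X b := by
    unfold N2
    rw [← Finset.sum_add_distrib]
    refine Finset.sum_congr rfl fun n _ => ?_
    rcases h n with h1 | h1 <;> simp [h1]
  have n2 : N2 X (fun n => c n - b n) = N2 X c + N2 X b := by
    unfold N2
    rw [← Finset.sum_add_distrib]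
    refine Finset.sum_congr rfl fun n _ => ?_
    rcases h n with h1 | h1 <;> simp [h1]
  have h1 := hMV x y hxy X (fun n => c n + b n) hX
  have h2 := hMV x y hxy X (fun n => c n - b n) hX
  rw [n1] at h1
  rw [n2] at h2
  simp only [e1] at h1
  simp only [e2] at h2
  have hc1 := dp_cont X c
  have hc2 := dp_cont X b
  have h3 : (∫ t in x..y, (dp X c t * conj (dp X b t)).re) =
      ((∫ t in x..y, ‖dp X c t + dp X b t‖ ^ 2) - ∫ t in x..y, ‖dp X c t - dp X b t‖ ^ 2) / 4 := by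
    rw [← intervalIntegral.integral_sub, ← intervalIntegral.integral_div]
    · refine intervalIntegral.integral_congr fun t _ => ?_
      rw [← Complex.normSq_eq_norm_sq, ← Complex.normSq_eq_norm_sq, Complex.normSq_add, Complex.normSq_sub]
      ring
    · exact (Continuous.intervalIntegrable (by fun_prop) _ _)
    · exact (Continuous.intervalIntegrable (by fun_prop) _ _)
  rw [h3, abs_div, abs_of_pos (show (0 : ℝ) < 4 by norm_num), div_le_iff₀ (by norm_num)]
  have h4 : (∫ t in x..y, ‖dp X c t + dp X b t‖ ^ 2) - ∫ t in x..y, ‖dp X c t - dp X b t‖ ^ 2 =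
      ((∫ t in x..y, ‖dp X c t + dp X b t‖ ^ 2) - (y - x) * (N2 X c + N2 X b)) -
      ((∫ t in x..y, ‖dp X c t - dp X b t‖ ^ 2) - (y - x) * (N2 X c + N2 X b)) := by ring
  rw [h4]
  refine (abs_sub _ _).trans ?_
  linarith

end

end Pool.Agent.U196.UV
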