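import Mathlib

set_option autoImplicit false

/-!
# Project UV (helper196): from moments to the weight of the set where a function is large
-/

namespace Pool.Agent.U196.UV

open Filter Topology MeasureTheory

noncomputable section

lemma four_le {x τ : ℝ} (hx : 0 ≤ x) (hτ : 0 < τ) : 3 / (2 * τ) * x ^ 2 - 1 / (2 * τ ^ 3) * x ^ 4 ≤ x := by
  have h1 : x - (3 / (2 * τ) * x ^ 2 - 1 / (2 * τ ^ 3) * x ^ 4) = x * ((x / τ - 1) ^ 2 * (x / τ + 2)) / 2 := by
    field_simp
    ring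
  have h2 : 0 ≤ x * ((x / τ - 1) ^ 2 * (x / τ + 2)) / 2 := by positivity
  linarith

/-- **the share** -/
theorem share {x y : ℝ} (hxy : x ≤ y) {V Y X : ℝ → ℝ} (hV : Continuous V) (hV0 : ∀ t, 0 ≤ V t) (hY : Continuous Y)
    (hX : Measurable X) (hXi : IntegrableOn (fun t => |X t - Y t| * V t) (Set.Ioc x y))
    {a₂ A₂ A₄ m e v τ lam : ℝ} (h1 : a₂ ≤ ∫ t in x..y, Y t ^ 2 * V t) (h2 : (∫ t in x..y, Y t ^ 2 * V t) ≤ A₂)
    (h3 : (∫ t in x..y, Y t ^ 4 * V t) ≤ A₄) (h4 : |∫ t in x..y, Y t * V t| ≤ m)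
    (h5 : (∫ t in x..y, |X t - Y t| * V t) ≤ e) (h6 : (∫ t in x..y, V t) ≤ v) (hτ : 0 < τ) (hlam : 0 ≤ lam)
    (hA₂ : 0 < A₂) {G : ℝ} (hG : G = 1 / 2 * (3 / (2 * τ) * a₂ - 1 / (2 * τ ^ 3) * A₄ - m) - e - lam * v) (hG0 : 0 < G) :
    G ^ 2 ≤ A₂ * ∫ t in {t : ℝ | x < t ∧ t ≤ y ∧ lam ≤ X t}, V t := by
  rw [intervalIntegral.integral_of_le hxy] at h1 h2 h3 h4 h5 h6
  have hcI : ∀ f : ℝ → ℝ, Continuous f → IntegrableOn f (Set.Ioc x y) := fun f hf =>
    (hf.integrableOn_Icc).mono_set Set.Ioc_subset_Icc_self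
  have hS : MeasurableSet {t : ℝ | lam ≤ X t} := measurableSet_le measurable_const hX
  have hset : {t : ℝ | x < t ∧ t ≤ y ∧ lam ≤ X t} = Set.Ioc x y ∩ {t : ℝ | lam ≤ X t} := by
    ext t
    simp only [Set.mem_ofPred_eq, Set.mem_inter_iff, Set.mem_Ioc, and_assoc]
  set W := ∫ t in {t : ℝ | x < t ∧ t ≤ y ∧ lam ≤ X t}, V t with hW
  have hW2 : W = ∫ t in Set.Ioc x y, {t : ℝ | lam ≤ X t}.indicator V t := by
    rw [hW, hset, setIntegral_indicator hS]
  have hIi : IntegrableOn ({t : ℝ | lam ≤ X t}.indicator V) (Set.Ioc x y) := (hcI V hV).indicator hS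
  have key : ∀ κ : ℝ, 0 < κ → G ≤ κ / 2 * A₂ + 1 / (2 * κ) * W := by
    intro κ hκ
    have hpt : ∀ t, 1 / 2 * (3 / (2 * τ) * (Y t ^ 2 * V t) - 1 / (2 * τ ^ 3) * (Y t ^ 4 * V t) + Y t * V t) ≤
        κ / 2 * (Y t ^ 2 * V t) + 1 / (2 * κ) * {t : ℝ | lam ≤ X t}.indicator V t + lam * V t + |X t - Y t| * V t := by
      intro t
      have hv := hV0 t
      have e1 := four_le (abs_nonneg (Y t)) hτ
      have e2 : |Y t| ^ 2 = Y t ^ 2 := sq_abs _
      have e3 : |Y t| ^ 4 = Y t ^ 4 := by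
        calc |Y t| ^ 4 = (|Y t| ^ 2) ^ 2 := by ring
          _ = (Y t ^ 2) ^ 2 := by rw [e2]
          _ = _ := by ring
      rw [e2, e3] at e1
      have e4 : 1 / 2 * (3 / (2 * τ) * (Y t ^ 2 * V t) - 1 / (2 * τ ^ 3) * (Y t ^ 4 * V t) + Y t * V t) ≤
          (|Y t| + Y t) / 2 * V t := by
        have := mul_le_mul_of_nonneg_right e1 hv
        nlinarith
      refine e4.trans ?_
      by_cases ht : lam ≤ X t
      · rw [Set.indicator_of_mem (show t ∈ {t : ℝ | lam ≤ X t} from ht)]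
        have e5 : (|Y t| + Y t) / 2 ≤ κ / 2 * Y t ^ 2 + 1 / (2 * κ) := by
          have e6 : (|Y t| + Y t) / 2 ≤ |Y t| := by
            have := le_abs_self (Y t)
            linarith
          have e7 : κ / 2 * Y t ^ 2 + 1 / (2 * κ) - |Y t| = (κ * |Y t| - 1) ^ 2 / (2 * κ) := by
            rw [← e2]
            field_simp
            ring
          have e8 : 0 ≤ (κ * |Y t| - 1) ^ 2 / (2 * κ) := by positivity
          linarith
        have e6 := mul_le_mul_of_nonneg_right e5 hv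
        have e7 : 0 ≤ lam * V t := mul_nonneg hlam hv
        have e8 : 0 ≤ |X t - Y t| * V t := mul_nonneg (abs_nonneg _) hv
        nlinarith
      · rw [Set.indicator_of_notMem (show t ∉ {t : ℝ | lam ≤ X t} from ht), mul_zero, add_zero]
        push Not at ht
        have e5 : (|Y t| + Y t) / 2 ≤ lam + |X t - Y t| := by
          have e6 : -(X t - Y t) ≤ |X t - Y t| := neg_le_abs _
          have e7 : 0 ≤ |X t - Y t| := abs_nonneg _
          rcases le_total 0 (Y t) with h | h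
          · rw [abs_of_nonneg h]
            linarith
          · rw [abs_of_nonpos h]
            linarith
        have e6 := mul_le_mul_of_nonneg_right e5 hv
        have e7 : 0 ≤ κ / 2 * (Y t ^ 2 * V t) := by positivity
        nlinarith
    have i2 := hcI (fun t => Y t ^ 2 * V t) (by fun_prop)
    have i4 := hcI (fun t => Y t ^ 4 * V t) (by fun_prop)
    have i1 := hcI (fun t => Y t * V t) (by fun_prop)
    have iv := hcI V hV
    have j1 := (i2.const_mul (3 / (2 * τ))).sub (i4.const_mul (1 / (2 * τ ^ 3)))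
    have j2 := (i2.const_mul (κ / 2)).add (hIi.const_mul (1 / (2 * κ)))
    have hI : (∫ t in Set.Ioc x y, 1 / 2 * (3 / (2 * τ) * (Y t ^ 2 * V t) - 1 / (2 * τ ^ 3) * (Y t ^ 4 * V t) + Y t * V t)) ≤
        ∫ t in Set.Ioc x y, (κ / 2 * (Y t ^ 2 * V t) + 1 / (2 * κ) * {t : ℝ | lam ≤ X t}.indicator V t + lam * V t +
        |X t - Y t| * V t) := integral_mono (μ := volume.restrict (Set.Ioc x y)) ((j1.add i1).const_mul (1 / 2))
      ((j2.add (iv.const_mul lam)).add hXi) hpt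
    have hL : (∫ t in Set.Ioc x y, 1 / 2 * (3 / (2 * τ) * (Y t ^ 2 * V t) - 1 / (2 * τ ^ 3) * (Y t ^ 4 * V t) + Y t * V t)) =
        1 / 2 * (3 / (2 * τ) * (∫ t in Set.Ioc x y, Y t ^ 2 * V t) - 1 / (2 * τ ^ 3) * (∫ t in Set.Ioc x y, Y t ^ 4 * V t) +
          ∫ t in Set.Ioc x y, Y t * V t) := by
      rw [integral_const_mul]
      congr 1
      have e1 := integral_add (μ := volume.restrict (Set.Ioc x y))
        (f := fun t => 3 / (2 * τ) * (Y t ^ 2 * V t) - 1 / (2 * τ ^ 3) * (Y t ^ 4 * V t)) (g := fun t => Y t * V t) j1 i1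
      have e2 := integral_sub (μ := volume.restrict (Set.Ioc x y))
        (f := fun t => 3 / (2 * τ) * (Y t ^ 2 * V t)) (g := fun t => 1 / (2 * τ ^ 3) * (Y t ^ 4 * V t))
        (i2.const_mul _) (i4.const_mul _)
      rw [e1, e2, integral_const_mul, integral_const_mul]
    have hR : (∫ t in Set.Ioc x y, (κ / 2 * (Y t ^ 2 * V t) + 1 / (2 * κ) * {t : ℝ | lam ≤ X t}.indicator V t + lam * V t +
        |X t - Y t| * V t)) = κ / 2 * (∫ t in Set.Ioc x y, Y t ^ 2 * V t) + 1 / (2 * κ) * W + lam * (∫ t in Set.Ioc x y, V t) +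
        ∫ t in Set.Ioc x y, |X t - Y t| * V t := by
      have e1 := integral_add (μ := volume.restrict (Set.Ioc x y))
        (f := fun t => κ / 2 * (Y t ^ 2 * V t) + 1 / (2 * κ) * {t : ℝ | lam ≤ X t}.indicator V t + lam * V t)
        (g := fun t => |X t - Y t| * V t) (j2.add (iv.const_mul lam)) hXi
      have e2 := integral_add (μ := volume.restrict (Set.Ioc x y))
        (f := fun t => κ / 2 * (Y t ^ 2 * V t) + 1 / (2 * κ) * {t : ℝ | lam ≤ X t}.indicator V t)
        (g := fun t => lam * V t) j2 (iv.const_mul lam)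
      have e3 := integral_add (μ := volume.restrict (Set.Ioc x y))
        (f := fun t => κ / 2 * (Y t ^ 2 * V t)) (g := fun t => 1 / (2 * κ) * {t : ℝ | lam ≤ X t}.indicator V t)
        (i2.const_mul _) (hIi.const_mul _)
      rw [e1, e2, e3, integral_const_mul, integral_const_mul, integral_const_mul, ← hW2]
    rw [hL, hR] at hI
    have h4' := (abs_le.1 h4).1
    have a1 : 3 / (2 * τ) * a₂ ≤ 3 / (2 * τ) * ∫ t in Set.Ioc x y, Y t ^ 2 * V t := mul_le_mul_of_nonneg_left h1 (by positivity)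
    have a2 : 1 / (2 * τ ^ 3) * ∫ t in Set.Ioc x y, Y t ^ 4 * V t ≤ 1 / (2 * τ ^ 3) * A₄ :=
      mul_le_mul_of_nonneg_left h3 (by positivity)
    have a3 : κ / 2 * ∫ t in Set.Ioc x y, Y t ^ 2 * V t ≤ κ / 2 * A₂ := mul_le_mul_of_nonneg_left h2 (by positivity)
    have a4 : lam * ∫ t in Set.Ioc x y, V t ≤ lam * v := mul_le_mul_of_nonneg_left h6 hlam
    linarith
  have h7 := key (G / A₂) (by positivity)
  have h8 : G / A₂ / 2 * A₂ = G / 2 := by field_simp
  have h9 : 1 / (2 * (G / A₂)) * W = A₂ * W / (2 * G) := by field_simp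
  rw [h8, h9] at h7
  have h10 : G / 2 ≤ A₂ * W / (2 * G) := by linarith
  rw [le_div_iff₀ (by positivity)] at h10
  nlinarith

end

end Pool.Agent.U196.UV
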